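import Pool.Agent.Lib_helper92.SQA.MEANF

namespace Pool.Agent.SQ

open Complex MeasureTheory Filter Topology
open Pool.Agent.GRH

theorem cf_orth {q : ℕ} [NeZero q] (A : Finset ((ℕ × ℕ) × ℕ)) (a b : (ℕ × ℕ) × ℕ → ℝ) :
    ∑ χ : DirichletCharacter ℂ q,
        (∑ x ∈ A, (a x : ℂ) * χ (x.1.1 * x.2 : ℕ) * starRingEnd ℂ (χ (x.1.2 : ℕ))) *
        starRingEnd ℂ
          (∑ x ∈ A, (b x : ℂ) * χ (x.1.1 * x.2 : ℕ) * starRingEnd ℂ (χ (x.1.2 : ℕ))) =
      ((q.totient * ∑ x ∈ A, ∑ y ∈ A,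
        if ((x.1.1 * x.2 * x.1.2).Coprime q ∧ (y.1.1 * y.2 * y.1.2).Coprime q ∧
          x.2 * (x.1.1 * y.1.2) ≡ y.2 * (y.1.1 * x.1.2) [MOD q]) then a x * b y else 0 : ℝ) : ℂ) := by
  have h1 : ∀ χ : DirichletCharacter ℂ q,
      (∑ x ∈ A, (a x : ℂ) * χ (x.1.1 * x.2 : ℕ) * starRingEnd ℂ (χ (x.1.2 : ℕ))) *
        starRingEnd ℂ
          (∑ x ∈ A, (b x : ℂ) * χ (x.1.1 * x.2 : ℕ) * starRingEnd ℂ (χ (x.1.2 : ℕ))) =
      ∑ x ∈ A, ∑ y ∈ A, (a x * b y : ℂ) * (χ ((x.1.1 * x.2 * y.1.2 : ℕ) : ZMod q) *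
        starRingEnd ℂ (χ ((y.1.1 * y.2 * x.1.2 : ℕ) : ZMod q))) := by
    intro χ
    rw [map_sum, Finset.sum_mul_sum]
    refine Finset.sum_congr rfl fun x _ => Finset.sum_congr rfl fun y _ => ?_
    simp only [map_mul, Complex.conj_conj, Complex.conj_ofReal, Nat.cast_mul]
    ring
  simp only [h1]
  rw [Finset.sum_comm]
  simp only [Complex.ofReal_mul, Complex.ofReal_sum, Complex.ofReal_natCast]
  rw [Finset.mul_sum]
  refine Finset.sum_congr rfl fun x _ => ?_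
  rw [Finset.sum_comm, Finset.mul_sum]
  refine Finset.sum_congr rfl fun y _ => ?_
  rw [← Finset.mul_sum, ms_orth]
  have hiff : ((((x.1.1 * x.2 * y.1.2 : ℕ) : ZMod q) = ((y.1.1 * y.2 * x.1.2 : ℕ) : ZMod q)) ∧
      IsUnit ((y.1.1 * y.2 * x.1.2 : ℕ) : ZMod q)) ↔
      ((x.1.1 * x.2 * x.1.2).Coprime q ∧ (y.1.1 * y.2 * y.1.2).Coprime q ∧
          x.2 * (x.1.1 * y.1.2) ≡ y.2 * (y.1.1 * x.1.2) [MOD q]) := by
    have e1 : x.1.1 * x.2 * y.1.2 = x.2 * (x.1.1 * y.1.2) := by ring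
    have e2 : y.1.1 * y.2 * x.1.2 = y.2 * (y.1.1 * x.1.2) := by ring
    constructor
    · rintro ⟨h2, h3⟩
      have h4 := h3
      rw [← h2] at h4
      rw [ZMod.isUnit_iff_coprime] at h3 h4
      refine ⟨?_, ?_, ?_⟩
      · exact Nat.Coprime.mul_left (Nat.Coprime.coprime_mul_right h4)
          (Nat.Coprime.coprime_mul_left h3)
      · exact Nat.Coprime.mul_left (Nat.Coprime.coprime_mul_right h3)
          (Nat.Coprime.coprime_mul_left h4)
      · rw [← e1, ← e2]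
        exact (ZMod.natCast_eq_natCast_iff _ _ _).mp h2
    · rintro ⟨h2, h3, h4⟩
      rw [← e1, ← e2] at h4
      refine ⟨(ZMod.natCast_eq_natCast_iff _ _ _).mpr h4, ?_⟩
      rw [ZMod.isUnit_iff_coprime]
      exact Nat.Coprime.mul_left (Nat.Coprime.coprime_mul_right h3)
          (Nat.Coprime.coprime_mul_left h2)
  by_cases hc : ((x.1.1 * x.2 * x.1.2).Coprime q ∧ (y.1.1 * y.2 * y.1.2).Coprime q ∧
          x.2 * (x.1.1 * y.1.2) ≡ y.2 * (y.1.1 * x.1.2) [MOD q])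
  · rw [if_pos (hiff.mpr hc), if_pos hc]
    push_cast
    ring
  · rw [if_neg (fun h => hc (hiff.mp h)), if_neg hc]
    push_cast
    ring

/-- for one pair `(j,j')` and two scales: diagonal plus off-diagonal -/
theorem cf_pair {κ : ℕ} (hκ : κ ≤ 1) {C5 : ℝ}
    (hC5 : ∀ y : ℝ, 0 ≤ y → |G κ y| ≤ C5 / (1 + y ^ 2) ^ 5) (hC0 : 0 ≤ C5)
    {L : ℝ} {q : ℕ} (hq : 2 ≤ q) {δ δ' δ₀ : ℝ} (hδ₀ : 0 < δ₀) (hδ : δ₀ ≤ δ) (hδ' : δ₀ ≤ δ')
    {j j' : ℕ × ℕ}
    (hj : j ∈ JJ L q) (hj' : j' ∈ JJ L q) (M : ℕ) :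
    |(∑ p ∈ Finset.range M ×ˢ Finset.range M,
        if ((j.1 * p.1 * j.2).Coprime q ∧ (j'.1 * p.2 * j'.2).Coprime q ∧
          p.1 * (j.1 * j'.2) ≡ p.2 * (j'.1 * j.2) [MOD q]) then
          G κ (p.1 * j.1 * δ / j.2) * G κ (p.2 * j'.1 * δ' / j'.2) else 0) -
      (∑ p ∈ Finset.range M ×ˢ Finset.range M,
        if (p.1.Coprime q ∧ p.2.Coprime q ∧ p.1 * (j.1 * j'.2) = p.2 * (j'.1 * j.2)) then
        G κ (p.1 * ((j.1 * j'.2 : ℕ) * (1 / (j.2 * j'.2))) * δ) *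
          G κ (p.2 * ((j'.1 * j.2 : ℕ) * (1 / (j.2 * j'.2))) * δ') else 0)| ≤
      C5 / (q * δ₀ / (NN L : ℝ) ^ 2) ^ 8 *
        ((Real.pi * NN L / (2 * δ)) * (Real.pi * NN L / (2 * δ'))) := by
  have hδp : 0 < δ := hδ₀.trans_le hδ
  have hδp' : 0 < δ' := hδ₀.trans_le hδ'
  obtain ⟨h1, h2, h3, h4, h5, h6⟩ := mf_JJ hq hj
  obtain ⟨h1', h2', h3', h4', h5', h6'⟩ := mf_JJ hq hj'
  have r1 : (0 : ℝ) < j.1 := by exact_mod_cast h1
  have r2 : (0 : ℝ) < j.2 := by exact_mod_cast h2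
  have r1' : (0 : ℝ) < j'.1 := by exact_mod_cast h1'
  have r2' : (0 : ℝ) < j'.2 := by exact_mod_cast h2'
  have rN : (0 : ℝ) < NN L := by exact_mod_cast mf_NN_pos
  set α : ℝ := j.1 * δ / j.2 with hα
  set β : ℝ := j'.1 * δ' / j'.2 with hβ
  have hα0 : 0 < α := by positivity
  have hβ0 : 0 < β := by positivity
  have eα : ((j.1 * j'.2 : ℕ) : ℝ) * (1 / (j.2 * j'.2)) * δ = α := by
    rw [hα]; push_cast; field_simp
  have eβ : ((j'.1 * j.2 : ℕ) : ℝ) * (1 / (j.2 * j'.2)) * δ' = β := by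
    rw [hβ]; push_cast; field_simp
  have eα' : ∀ x : ℝ, x * (((j.1 * j'.2 : ℕ) : ℝ) * (1 / (j.2 * j'.2))) * δ = x * α := by
    intro x; rw [mul_assoc, eα]
  have eβ' : ∀ x : ℝ, x * (((j'.1 * j.2 : ℕ) : ℝ) * (1 / (j.2 * j'.2))) * δ' = x * β := by
    intro x; rw [mul_assoc, eβ]
  simp only [eα', eβ']
  rw [← Finset.sum_sub_distrib]
  set S : Finset (ℕ × ℕ) := (Finset.range M ×ˢ Finset.range M).filter fun p =>
    (p.1.Coprime q ∧ p.2.Coprime q ∧ p.1 * (j.1 * j'.2) ≡ p.2 * (j'.1 * j.2) [MOD q] ∧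
      p.1 * (j.1 * j'.2) ≠ p.2 * (j'.1 * j.2)) with hS
  have hcond : ∀ p : ℕ × ℕ, ((if ((j.1 * p.1 * j.2).Coprime q ∧ (j'.1 * p.2 * j'.2).Coprime q ∧
          p.1 * (j.1 * j'.2) ≡ p.2 * (j'.1 * j.2) [MOD q]) then
          G κ (p.1 * j.1 * δ / j.2) * G κ (p.2 * j'.1 * δ' / j'.2) else 0) -
      if (p.1.Coprime q ∧ p.2.Coprime q ∧ p.1 * (j.1 * j'.2) = p.2 * (j'.1 * j.2)) then
        G κ (p.1 * α) * G κ (p.2 * β) else 0) =
      if (p.1.Coprime q ∧ p.2.Coprime q ∧ p.1 * (j.1 * j'.2) ≡ p.2 * (j'.1 * j.2) [MOD q] ∧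
      p.1 * (j.1 * j'.2) ≠ p.2 * (j'.1 * j.2)) then G κ (p.1 * α) * G κ (p.2 * β) else 0 := by
    intro p
    have a1 : (p.1 : ℝ) * j.1 * δ / j.2 = p.1 * α := by rw [hα]; ring
    have a2 : (p.2 : ℝ) * j'.1 * δ' / j'.2 = p.2 * β := by rw [hβ]; ring
    rw [a1, a2]
    have c1 : (j.1 * p.1 * j.2).Coprime q ↔ p.1.Coprime q := by
      constructor
      · intro h
        exact Nat.Coprime.coprime_mul_left (Nat.Coprime.coprime_mul_right h)
      · intro h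
        exact (Nat.Coprime.mul_left (Nat.Coprime.mul_left h5 h) h6)
    have c2 : (j'.1 * p.2 * j'.2).Coprime q ↔ p.2.Coprime q := by
      constructor
      · intro h
        exact Nat.Coprime.coprime_mul_left (Nat.Coprime.coprime_mul_right h)
      · intro h
        exact (Nat.Coprime.mul_left (Nat.Coprime.mul_left h5' h) h6')
    simp only [c1, c2]
    by_cases e1 : p.1.Coprime q <;> by_cases e2 : p.2.Coprime q <;>
      by_cases e3 : p.1 * (j.1 * j'.2) = p.2 * (j'.1 * j.2)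
    · have e4 : p.1 * (j.1 * j'.2) ≡ p.2 * (j'.1 * j.2) [MOD q] := by rw [e3]
      rw [if_pos ⟨e1, e2, e4⟩, if_pos ⟨e1, e2, e3⟩, if_neg (fun h => h.2.2.2 e3), sub_self]
    · simp [e1, e2, e3]
    all_goals simp [e1, e2]
  have hre : ∑ p ∈ Finset.range M ×ˢ Finset.range M, ((if ((j.1 * p.1 * j.2).Coprime q ∧
          (j'.1 * p.2 * j'.2).Coprime q ∧
          p.1 * (j.1 * j'.2) ≡ p.2 * (j'.1 * j.2) [MOD q]) then
          G κ (p.1 * j.1 * δ / j.2) * G κ (p.2 * j'.1 * δ' / j'.2) else 0) -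
      if (p.1.Coprime q ∧ p.2.Coprime q ∧ p.1 * (j.1 * j'.2) = p.2 * (j'.1 * j.2)) then
        G κ (p.1 * α) * G κ (p.2 * β) else 0) =
      ∑ p ∈ S, G κ (p.1 * α) * G κ (p.2 * β) := by
    rw [hS, Finset.sum_filter]
    exact Finset.sum_congr rfl fun p _ => hcond p
  rw [hre, abs_of_nonneg (Finset.sum_nonneg fun p _ =>
    mul_nonneg (mf_G_nonneg κ (by positivity)) (mf_G_nonneg κ (by positivity)))]
  have hY : 0 < q * δ₀ / (NN L : ℝ) ^ 2 := by
    have : (0 : ℝ) < q := by exact_mod_cast (by omega : 0 < q)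
    positivity
  have hNj : (j.2 : ℝ) * j'.2 ≤ (NN L : ℝ) ^ 2 := by
    rw [sq]
    exact mul_le_mul (by exact_mod_cast h4.le) (by exact_mod_cast h4'.le) r2'.le rN.le
  have hbig : ∀ (n a : ℕ) (d : ℝ), δ₀ ≤ d → q ≤ n * a →
      q * δ₀ / (NN L : ℝ) ^ 2 ≤ n * (a * (1 / (j.2 * j'.2)) * d) := by
    intro n a d hd h
    have h' : (q : ℝ) ≤ n * a := by exact_mod_cast h
    have hd0 : 0 < d := hδ₀.trans_le hd
    calc q * δ₀ / (NN L : ℝ) ^ 2 ≤ q * δ₀ / (j.2 * j'.2) := by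
          apply div_le_div_of_nonneg_left (by positivity) (by positivity) hNj
      _ ≤ (n * a) * d / (j.2 * j'.2) := by gcongr
      _ = _ := by ring
  refine (mf_off hκ hC5 hC0 hα0 hβ0 hY M S ?_ ?_).trans ?_
  · intro p hp
    rw [hS, Finset.mem_filter, Finset.mem_product, Finset.mem_range, Finset.mem_range] at hp
    obtain ⟨⟨b1, b2⟩, b3, b4, -, -⟩ := hp
    simp only [Finset.mem_product, Finset.mem_Ico]
    refine ⟨⟨?_, b1⟩, ⟨?_, b2⟩⟩
    · rcases Nat.eq_zero_or_pos p.1 with h | h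
      · rw [h, Nat.coprime_zero_left] at b3; omega
      · exact h
    · rcases Nat.eq_zero_or_pos p.2 with h | h
      · rw [h, Nat.coprime_zero_left] at b4; omega
      · exact h
  · intro p hp
    rw [hS, Finset.mem_filter] at hp
    obtain ⟨-, -, -, b5, b6⟩ := hp
    by_contra hcon
    push Not at hcon
    obtain ⟨n1, n2⟩ := hcon
    have m1 : p.1 * (j.1 * j'.2) < q := by
      by_contra hge
      push Not at hge
      have := hbig p.1 (j.1 * j'.2) δ hδ hge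
      rw [eα] at this
      linarith
    have m2 : p.2 * (j'.1 * j.2) < q := by
      by_contra hge
      push Not at hge
      have := hbig p.2 (j'.1 * j.2) δ' hδ' hge
      rw [eβ] at this
      linarith
    exact b6 (Nat.ModEq.eq_of_lt_of_lt b5 m1 m2)
  · refine mul_le_mul_of_nonneg_left ?_ (by positivity)
    have x1 : X α ≤ Real.pi * NN L / (2 * δ) := by
      refine (X_le hα0).trans ?_
      rw [div_le_div_iff₀ (by positivity) (by positivity), hα]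
      have : (j.2 : ℝ) ≤ NN L * j.1 := by
        have e1 : (j.2 : ℝ) ≤ NN L := by exact_mod_cast h4.le
        have e2 : (1 : ℝ) ≤ j.1 := by exact_mod_cast h1
        nlinarith
      calc Real.pi * (2 * δ) = Real.pi * (2 * δ) * (j.2 / j.2) := by field_simp
        _ ≤ Real.pi * (2 * δ) * ((NN L * j.1) / j.2) := by gcongr
        _ = _ := by ring
    have x2 : X β ≤ Real.pi * NN L / (2 * δ') := by
      refine (X_le hβ0).trans ?_
      rw [div_le_div_iff₀ (by positivity) (by positivity), hβ]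
      have : (j'.2 : ℝ) ≤ NN L * j'.1 := by
        have e1 : (j'.2 : ℝ) ≤ NN L := by exact_mod_cast h4'.le
        have e2 : (1 : ℝ) ≤ j'.1 := by exact_mod_cast h1'
        nlinarith
      calc Real.pi * (2 * δ') = Real.pi * (2 * δ') * (j'.2 / j'.2) := by field_simp
        _ ≤ Real.pi * (2 * δ') * ((NN L * j'.1) / j'.2) := by gcongr
        _ = _ := by ring
    exact mul_le_mul x1 x2 (X_nonneg _) (by positivity)

/-- the Gaussian identity -/
theorem cf_gauss (κ : ℕ) {x v v' D : ℝ} (hx : 0 ≤ x) (hD : 0 < D) :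
    √(Real.exp v / D) * √(Real.exp v' / D) *
        (G κ (x * (Real.exp v / D)) * G κ (x * (Real.exp v' / D))) =
      (Real.cosh (v - v')) ^ (-(1 / 2 + (κ : ℝ))) *
        ((√((Real.exp v ^ 2 + Real.exp v' ^ 2) / 2) / D) *
          G κ (x * (√((Real.exp v ^ 2 + Real.exp v' ^ 2) / 2) / D)) ^ 2) := by
  set E : ℝ := √((Real.exp v ^ 2 + Real.exp v' ^ 2) / 2) with hE
  have hE2 : E ^ 2 = (Real.exp v ^ 2 + Real.exp v' ^ 2) / 2 := Real.sq_sqrt (by positivity)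
  have hE0 : 0 < E := Real.sqrt_pos.mpr (by positivity)
  have hc0 : 0 < Real.cosh (v - v') := Real.cosh_pos _
  have hcosh : E ^ 2 = Real.cosh (v - v') * (Real.exp v * Real.exp v') := by
    rw [hE2, Real.cosh_eq, neg_sub]
    have e1 : Real.exp (v - v') * (Real.exp v * Real.exp v') = Real.exp v ^ 2 := by
      rw [← Real.exp_add, ← Real.exp_add, ← Real.exp_nat_mul]; congr 1; push_cast; ring
    have e2 : Real.exp (v' - v) * (Real.exp v * Real.exp v') = Real.exp v' ^ 2 := by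
      rw [← Real.exp_add, ← Real.exp_add, ← Real.exp_nat_mul]; congr 1; push_cast; ring
    rw [div_mul_eq_mul_div, add_mul, e1, e2]
  unfold G
  have hexp : Real.exp (-Real.pi * (x * (Real.exp v / D)) ^ 2) *
      Real.exp (-Real.pi * (x * (Real.exp v' / D)) ^ 2) =
      Real.exp (-Real.pi * (x * (E / D)) ^ 2) ^ 2 := by
    rw [← Real.exp_add, ← Real.exp_nat_mul]
    congr 1
    push_cast
    rw [mul_pow, mul_pow, mul_pow, div_pow, div_pow, div_pow, hE2]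
    ring
  have hsq : √(Real.exp v / D) * √(Real.exp v' / D) = √(Real.exp v * Real.exp v') / D := by
    rw [← Real.sqrt_mul (by positivity), div_mul_div_comm, Real.sqrt_div (by positivity),
      Real.sqrt_mul_self hD.le]
  have hroot : √(Real.exp v * Real.exp v') = (Real.cosh (v - v')) ^ (-(1 / 2 : ℝ)) * E := by
    have e3 : Real.exp v * Real.exp v' = E ^ 2 / Real.cosh (v - v') := by
      rw [hcosh]; field_simp
    rw [e3, Real.sqrt_div (by positivity), Real.sqrt_sq hE0.le, Real.rpow_neg hc0.le,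
      ← Real.sqrt_eq_rpow]
    ring
  have hpow : Real.exp v ^ κ * Real.exp v' ^ κ =
      (Real.cosh (v - v')) ^ (-(κ : ℝ)) * (E ^ κ) ^ 2 := by
    rw [← pow_mul, mul_comm κ 2, pow_mul, hcosh, mul_pow, mul_pow, Real.rpow_neg hc0.le,
      Real.rpow_natCast]
    field_simp
  have hsplit : (Real.cosh (v - v')) ^ (-(1 / 2 + (κ : ℝ))) =
      (Real.cosh (v - v')) ^ (-(1 / 2 : ℝ)) * (Real.cosh (v - v')) ^ (-(κ : ℝ)) := by
    rw [← Real.rpow_add hc0]; congr 1; ring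
  rw [hsq, hroot, hsplit]
  have e5 : (x * (Real.exp v / D)) ^ κ * (x * (Real.exp v' / D)) ^ κ =
      (Real.cosh (v - v')) ^ (-(κ : ℝ)) * ((x * (E / D)) ^ κ) ^ 2 := by
    calc (x * (Real.exp v / D)) ^ κ * (x * (Real.exp v' / D)) ^ κ =
        (x ^ κ) ^ 2 * (Real.exp v ^ κ * Real.exp v' ^ κ) / (D ^ κ) ^ 2 := by
          rw [mul_pow, mul_pow, div_pow, div_pow]; field_simp
      _ = _ := by
          rw [hpow, mul_pow, div_pow]; field_simp
  calc _ = (Real.cosh (v - v')) ^ (-(1 / 2 : ℝ)) * E / D *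
        (((x * (Real.exp v / D)) ^ κ * (x * (Real.exp v' / D)) ^ κ) *
        (Real.exp (-Real.pi * (x * (Real.exp v / D)) ^ 2) *
          Real.exp (-Real.pi * (x * (Real.exp v' / D)) ^ 2))) := by ring
    _ = _ := by
        rw [hexp, e5]
        ring


/-- the limit of the diagonal sums -/
theorem cf_Dlim {κ : ℕ} (hκ : κ ≤ 1) {L : ℝ} {q : ℕ} (hq : 2 ≤ q) {δ : ℝ} (hδ0 : 0 < δ) :
    Tendsto (fun M : ℕ => ∑ j ∈ JJ L q, ∑ j' ∈ JJ L q, 4 * δ * (cc L j * cc L j') *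
    ∑ p ∈ Finset.range M ×ˢ Finset.range M,
        if (p.1.Coprime q ∧ p.2.Coprime q ∧ p.1 * (j.1 * j'.2) = p.2 * (j'.1 * j.2)) then
        G κ (p.1 * ((j.1 * j'.2 : ℕ) * (δ / (j.2 * j'.2)))) *
          G κ (p.2 * ((j'.1 * j.2 : ℕ) * (δ / (j.2 * j'.2)))) else 0) atTop
      (𝓝 (Diag κ q L δ)) := by
  have e0 : Diag κ q L δ = ∑ j ∈ JJ L q, ∑ j' ∈ JJ L q, 4 * δ * (cc L j * cc L j') *
      WW κ q (δ * (j.1 * j'.1) / gg j j') := by
    unfold Diag
    rw [Finset.mul_sum]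
    refine Finset.sum_congr rfl fun j _ => ?_
    rw [Finset.mul_sum]
    exact Finset.sum_congr rfl fun j' _ => by ring
  rw [e0]
  refine tendsto_finsetSum _ fun j hj => tendsto_finsetSum _ fun j' hj' => ?_
  refine Tendsto.const_mul _ ?_
  obtain ⟨h1, h2, -, -, h5, h6⟩ := mf_JJ hq hj
  obtain ⟨h1', h2', -, -, h5', h6'⟩ := mf_JJ hq hj'
  have r1 : (0 : ℝ) < j.1 := by exact_mod_cast h1
  have r2 : (0 : ℝ) < j.2 := by exact_mod_cast h2
  have r1' : (0 : ℝ) < j'.1 := by exact_mod_cast h1'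
  have r2' : (0 : ℝ) < j'.2 := by exact_mod_cast h2'
  have := mf_diag hκ (q := q) (a := j.1 * j'.2) (b := j'.1 * j.2) (by positivity)
    (by positivity) (Nat.Coprime.mul_left h5 h6') (Nat.Coprime.mul_left h5' h6)
    (τ := δ / (j.2 * j'.2)) (by positivity)
  have e1 : δ * (j.1 * j'.1) / gg j j' =
      (((j.1 * j'.2) * (j'.1 * j.2) : ℕ) : ℝ) / (Nat.gcd (j.1 * j'.2) (j'.1 * j.2) : ℕ) *
        (δ / (j.2 * j'.2)) := by
    unfold gg
    push_cast
    have hg : ((Nat.gcd (j.1 * j'.2) (j'.1 * j.2) : ℕ) : ℝ) ≠ 0 := by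
      have : 0 < Nat.gcd (j.1 * j'.2) (j'.1 * j.2) := Nat.gcd_pos_of_pos_left _ (by positivity)
      exact_mod_cast this.ne'
    field_simp
  rw [e1]
  exact this

/-- pointwise convergence of the truncated densities -/
theorem cf_lim {κ : ℕ} (hκ : κ ≤ 1) {L : ℝ} {q : ℕ} [NeZero q] (hq : 2 ≤ q) (v : ℝ)
    (χ : DirichletCharacter ℂ q) :
    Tendsto (fun M => ∑ x ∈ JJ L q ×ˢ Finset.range M,
      ((2 * √(Real.exp v / √q) * cc L x.1 *
        G κ (x.2 * x.1.1 * (Real.exp v / √q) / x.1.2) : ℝ) : ℂ) *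
        χ (x.1.1 * x.2 : ℕ) * starRingEnd ℂ (χ (x.1.2 : ℕ))) atTop (𝓝 (dF κ L χ v)) := by
  have hq0 : 0 < q := by omega
  have hqr : (0 : ℝ) < q := by exact_mod_cast hq0
  have hsq : 0 < √(q : ℝ) := Real.sqrt_pos.mpr hqr
  rw [dF_eq hq hκ L χ v]
  have : ∀ M : ℕ, ∑ x ∈ JJ L q ×ˢ Finset.range M,
      ((2 * √(Real.exp v / √q) * cc L x.1 *
        G κ (x.2 * x.1.1 * (Real.exp v / √q) / x.1.2) : ℝ) : ℂ) *
        χ (x.1.1 * x.2 : ℕ) * starRingEnd ℂ (χ (x.1.2 : ℕ)) =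
      ∑ j ∈ JJ L q, ∑ n ∈ Finset.range M,
        ((2 * √(Real.exp v / √q) * cc L j * G κ (n * j.1 * (Real.exp v / √q) / j.2) : ℝ) : ℂ) *
        χ (j.1 * n : ℕ) * starRingEnd ℂ (χ (j.2 : ℕ)) := by
    intro M
    rw [Finset.sum_product]
  simp only [this]
  refine tendsto_finsetSum _ fun j hj => ?_
  obtain ⟨h1, h2, -⟩ := mf_JJ hq hj
  have r1 : (0 : ℝ) < j.1 := by exact_mod_cast h1
  have r2 : (0 : ℝ) < j.2 := by exact_mod_cast h2
  have hα : 0 < (j.1 : ℝ) * (Real.exp v / √q) / j.2 := by positivity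
  have hs : Summable fun n : ℕ =>
      ((2 * √(Real.exp v / √q) * cc L j * G κ (n * j.1 * (Real.exp v / √q) / j.2) : ℝ) : ℂ) *
        χ (j.1 * n : ℕ) * starRingEnd ℂ (χ (j.2 : ℕ)) := by
    refine Summable.of_norm_bounded
      (((mf_summable hκ hα).mul_left (|2 * √(Real.exp v / √q) * cc L j|))) fun n => ?_
    rw [norm_mul, norm_mul, Complex.norm_real, RCLike.norm_conj, Real.norm_eq_abs, abs_mul]
    have e1 : |G κ (n * j.1 * (Real.exp v / √q) / j.2)| =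
        G κ (n * (j.1 * (Real.exp v / √q) / j.2)) := by
      rw [abs_of_nonneg (mf_G_nonneg κ (by positivity))]
      congr 1
      ring
    rw [e1]
    have n1 := χ.norm_le_one ((j.1 * n : ℕ) : ZMod q)
    have n2 := χ.norm_le_one ((j.2 : ℕ) : ZMod q)
    have p1 : 0 ≤ |2 * √(Real.exp v / √q) * cc L j| *
        G κ (n * (j.1 * (Real.exp v / √q) / j.2)) :=
      mul_nonneg (abs_nonneg _) (mf_G_nonneg κ (by positivity))
    calc _ ≤ |2 * √(Real.exp v / √q) * cc L j| *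
          G κ (n * (j.1 * (Real.exp v / √q) / j.2)) * 1 * 1 := by
          refine mul_le_mul (mul_le_mul le_rfl n1 (norm_nonneg _) p1) n2 (norm_nonneg _)
            (by rw [mul_one]; exact p1)
      _ = _ := by ring
  exact hs.hasSum.tendsto_sum_nat

theorem cross_f_pr : ∃ C : ℝ, 0 ≤ C ∧ ∀ κ : ℕ, κ ≤ 1 → ∀ (L : ℝ) (q : ℕ) [NeZero q], 1 ≤ L →
    32 * L = Real.log q → ∀ v v' : ℝ, 0 ≤ v → 0 ≤ v' →
      ‖∑ χ : DirichletCharacter ℂ q, dF κ L χ v * starRingEnd ℂ (dF κ L χ v') -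
        ((q.totient * ((Real.cosh (v - v')) ^ (-(1 / 2 + (κ : ℝ))) *
          Diag κ q L (√((Real.exp v ^ 2 + Real.exp v' ^ 2) / 2) / √q)) : ℝ) : ℂ)‖ ≤
        q.totient * (C * Real.exp (-(v + v') / 2) / q) := by
  obtain ⟨C5, hC0, hC5⟩ := G_five
  refine ⟨Real.pi ^ 2 * C5 * 2 ^ 22, by positivity, ?_⟩
  intro κ hκ L q _ hL hLq v v' hv hv'
  have hL0 : 0 < L := by linarith
  have hq0 : 0 < q := Nat.pos_of_ne_zero (NeZero.ne q)
  have hq : 2 ≤ q := by
    by_contra hcon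
    have : q = 1 := by omega
    rw [this] at hLq
    simp at hLq
    linarith
  have hqr : (0 : ℝ) < q := by exact_mod_cast hq0
  have hq1 : (1 : ℝ) ≤ q := by exact_mod_cast hq0
  have hsq : 0 < √(q : ℝ) := Real.sqrt_pos.mpr hqr
  set δ : ℝ := Real.exp v / √q with hδ
  set δ' : ℝ := Real.exp v' / √q with hδ'
  set D : ℝ := √((Real.exp v ^ 2 + Real.exp v' ^ 2) / 2) / √q with hD
  set δ₀ : ℝ := 1 / √q with hδ₀
  have hδ0 : 0 < δ := by positivity
  have hδ0' : 0 < δ' := by positivity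
  have hδ₀0 : 0 < δ₀ := by positivity
  have hD0 : 0 < D := by positivity
  have hle : δ₀ ≤ δ := by
    rw [hδ₀, hδ]
    exact div_le_div_of_nonneg_right (Real.one_le_exp hv) hsq.le
  have hle' : δ₀ ≤ δ' := by
    rw [hδ₀, hδ']
    exact div_le_div_of_nonneg_right (Real.one_le_exp hv') hsq.le
  have hG5 : ∀ y : ℝ, 0 ≤ y → |G κ y| ≤ C5 / (1 + y ^ 2) ^ 5 := hC5 κ hκ
  set a : (ℕ × ℕ) × ℕ → ℝ := fun x =>
    2 * √δ * cc L x.1 * G κ (x.2 * x.1.1 * δ / x.1.2) with ha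
  set b : (ℕ × ℕ) × ℕ → ℝ := fun x =>
    2 * √δ' * cc L x.1 * G κ (x.2 * x.1.1 * δ' / x.1.2) with hb
  set FM : ℕ → DirichletCharacter ℂ q → ℂ := fun M χ =>
    ∑ x ∈ JJ L q ×ˢ Finset.range M,
      (a x : ℂ) * χ (x.1.1 * x.2 : ℕ) * starRingEnd ℂ (χ (x.1.2 : ℕ)) with hFM
  set GM : ℕ → DirichletCharacter ℂ q → ℂ := fun M χ =>
    ∑ x ∈ JJ L q ×ˢ Finset.range M,
      (b x : ℂ) * χ (x.1.1 * x.2 : ℕ) * starRingEnd ℂ (χ (x.1.2 : ℕ)) with hGM
  have hlim2 : Tendsto (fun M => ∑ χ : DirichletCharacter ℂ q,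
      FM M χ * starRingEnd ℂ (GM M χ)) atTop
      (𝓝 (∑ χ : DirichletCharacter ℂ q, dF κ L χ v * starRingEnd ℂ (dF κ L χ v'))) := by
    refine tendsto_finsetSum _ fun χ _ => ?_
    refine (cf_lim hκ hq v χ).mul ?_
    exact (Complex.continuous_conj.tendsto _).comp (cf_lim hκ hq v' χ)
  -- the diagonal
  set ρ : ℝ := (Real.cosh (v - v')) ^ (-(1 / 2 + (κ : ℝ))) with hρ
  set DD : ℕ → ℝ := fun M => ∑ j ∈ JJ L q, ∑ j' ∈ JJ L q, 4 * D * (cc L j * cc L j') *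
    ∑ p ∈ Finset.range M ×ˢ Finset.range M,
        if (p.1.Coprime q ∧ p.2.Coprime q ∧ p.1 * (j.1 * j'.2) = p.2 * (j'.1 * j.2)) then
        G κ (p.1 * ((j.1 * j'.2 : ℕ) * (D / (j.2 * j'.2)))) *
          G κ (p.2 * ((j'.1 * j.2 : ℕ) * (D / (j.2 * j'.2)))) else 0 with hDD
  have hDlim : Tendsto DD atTop (𝓝 (Diag κ q L D)) := cf_Dlim hκ hq hD0
  -- the bound for every `M`
  have hbound : ∀ M : ℕ, ‖∑ χ : DirichletCharacter ℂ q, FM M χ * starRingEnd ℂ (GM M χ) -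
      ((q.totient * (ρ * DD M) : ℝ) : ℂ)‖ ≤
      q.totient * (Real.pi ^ 2 * C5 * 2 ^ 22 * Real.exp (-(v + v') / 2) / q) := by
    intro M
    rw [cf_orth (JJ L q ×ˢ Finset.range M) a b]
    rw [← Complex.ofReal_sub, Complex.norm_real, Real.norm_eq_abs, ← mul_sub, abs_mul,
      Nat.abs_cast]
    refine mul_le_mul_of_nonneg_left ?_ (by positivity)
    have e1 : (∑ x ∈ JJ L q ×ˢ Finset.range M, ∑ y ∈ JJ L q ×ˢ Finset.range M,
        if ((x.1.1 * x.2 * x.1.2).Coprime q ∧ (y.1.1 * y.2 * y.1.2).Coprime q ∧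
          x.2 * (x.1.1 * y.1.2) ≡ y.2 * (y.1.1 * x.1.2) [MOD q]) then a x * b y else 0) =
        ∑ j ∈ JJ L q, ∑ j' ∈ JJ L q, 4 * (√δ * √δ') * (cc L j * cc L j') *
          ∑ p ∈ Finset.range M ×ˢ Finset.range M,
            if ((j.1 * p.1 * j.2).Coprime q ∧ (j'.1 * p.2 * j'.2).Coprime q ∧
              p.1 * (j.1 * j'.2) ≡ p.2 * (j'.1 * j.2) [MOD q]) then
              G κ (p.1 * j.1 * δ / j.2) * G κ (p.2 * j'.1 * δ' / j'.2) else 0 := by
      rw [Finset.sum_product]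
      refine Finset.sum_congr rfl fun j _ => ?_
      have : ∀ n : ℕ, (∑ y ∈ JJ L q ×ˢ Finset.range M,
          if ((j.1 * n * j.2).Coprime q ∧ (y.1.1 * y.2 * y.1.2).Coprime q ∧
            n * (j.1 * y.1.2) ≡ y.2 * (y.1.1 * j.2) [MOD q]) then a (j, n) * b y else 0) =
          ∑ j' ∈ JJ L q, ∑ n' ∈ Finset.range M,
            if ((j.1 * n * j.2).Coprime q ∧ (j'.1 * n' * j'.2).Coprime q ∧
            n * (j.1 * j'.2) ≡ n' * (j'.1 * j.2) [MOD q]) then a (j, n) * b (j', n') else 0 := by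
        intro n
        rw [Finset.sum_product]
      simp only [this]
      rw [Finset.sum_comm]
      refine Finset.sum_congr rfl fun j' _ => ?_
      rw [Finset.mul_sum, Finset.sum_product]
      refine Finset.sum_congr rfl fun n _ => Finset.sum_congr rfl fun n' _ => ?_
      rw [mul_ite, mul_zero]
      refine if_congr Iff.rfl ?_ rfl
      simp only [ha, hb]
      ring
    rw [e1]
    have e2 : ρ * DD M = ∑ j ∈ JJ L q, ∑ j' ∈ JJ L q, 4 * (√δ * √δ') * (cc L j * cc L j') *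
        ∑ p ∈ Finset.range M ×ˢ Finset.range M,
        if (p.1.Coprime q ∧ p.2.Coprime q ∧ p.1 * (j.1 * j'.2) = p.2 * (j'.1 * j.2)) then
        G κ (p.1 * ((j.1 * j'.2 : ℕ) * (1 / (j.2 * j'.2))) * δ) *
          G κ (p.2 * ((j'.1 * j.2 : ℕ) * (1 / (j.2 * j'.2))) * δ') else 0 := by
      simp only [hDD]
      rw [Finset.mul_sum]
      refine Finset.sum_congr rfl fun j hj => ?_
      rw [Finset.mul_sum]
      refine Finset.sum_congr rfl fun j' hj' => ?_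
      obtain ⟨h1, h2, -, -, h5, h6⟩ := mf_JJ hq hj
      obtain ⟨h1', h2', -, -, h5', h6'⟩ := mf_JJ hq hj'
      have r2 : (0 : ℝ) < j.2 := by exact_mod_cast h2
      have r2' : (0 : ℝ) < j'.2 := by exact_mod_cast h2'
      rw [Finset.mul_sum, Finset.mul_sum, Finset.mul_sum]
      refine Finset.sum_congr rfl fun p _ => ?_
      by_cases hp : (p.1.Coprime q ∧ p.2.Coprime q ∧ p.1 * (j.1 * j'.2) = p.2 * (j'.1 * j.2))
      · rw [if_pos hp, if_pos hp]
        set x : ℝ := p.1 * ((j.1 * j'.2 : ℕ) * (1 / (j.2 * j'.2))) with hx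
        have hx0 : 0 ≤ x := by rw [hx]; positivity
        have hcast : (p.1 : ℝ) * ((j.1 * j'.2 : ℕ) : ℝ) = p.2 * ((j'.1 * j.2 : ℕ) : ℝ) := by
          exact_mod_cast hp.2.2
        have hx2 : (p.2 : ℝ) * ((j'.1 * j.2 : ℕ) * (1 / (j.2 * j'.2))) = x := by
          rw [hx, ← mul_assoc, ← mul_assoc, hcast]
        have hx3 : (p.1 : ℝ) * ((j.1 * j'.2 : ℕ) * (D / (j.2 * j'.2))) = x * D := by
          rw [hx]; ring
        have hx4 : (p.2 : ℝ) * ((j'.1 * j.2 : ℕ) * (D / (j.2 * j'.2))) = x * D := by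
          rw [← hx2]; ring
        rw [hx2, hx3, hx4]
        have := cf_gauss κ (v := v) (v' := v') hx0 hsq
        rw [← hδ, ← hδ', ← hρ, ← hD] at this
        calc ρ * (4 * D * (cc L j * cc L j') * (G κ (x * D) * G κ (x * D))) =
            4 * (cc L j * cc L j') * (ρ * (D * G κ (x * D) ^ 2)) := by ring
          _ = 4 * (cc L j * cc L j') * (√δ * √δ' * (G κ (x * δ) * G κ (x * δ'))) := by
              rw [this]
          _ = _ := by ring
      · rw [if_neg hp, if_neg hp]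
        ring
    rw [e2]
    set E : ℝ := C5 / (q * δ₀ / (NN L : ℝ) ^ 2) ^ 8 *
      ((Real.pi * NN L / (2 * δ)) * (Real.pi * NN L / (2 * δ'))) with hE
    have hNpos : (0 : ℝ) < NN L := by exact_mod_cast mf_NN_pos
    have hE0 : 0 ≤ E := by positivity
    rw [← Finset.sum_sub_distrib]
    have hterm : ∀ j ∈ JJ L q, |(∑ j' ∈ JJ L q, 4 * (√δ * √δ') * (cc L j * cc L j') *
          ∑ p ∈ Finset.range M ×ˢ Finset.range M,
            if ((j.1 * p.1 * j.2).Coprime q ∧ (j'.1 * p.2 * j'.2).Coprime q ∧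
              p.1 * (j.1 * j'.2) ≡ p.2 * (j'.1 * j.2) [MOD q]) then
              G κ (p.1 * j.1 * δ / j.2) * G κ (p.2 * j'.1 * δ' / j'.2) else 0) -
          ∑ j' ∈ JJ L q, 4 * (√δ * √δ') * (cc L j * cc L j') *
        ∑ p ∈ Finset.range M ×ˢ Finset.range M,
        if (p.1.Coprime q ∧ p.2.Coprime q ∧ p.1 * (j.1 * j'.2) = p.2 * (j'.1 * j.2)) then
        G κ (p.1 * ((j.1 * j'.2 : ℕ) * (1 / (j.2 * j'.2))) * δ) *
          G κ (p.2 * ((j'.1 * j.2 : ℕ) * (1 / (j.2 * j'.2))) * δ') else 0| ≤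
        (JJ L q).card * (4 * (√δ * √δ') * E) := by
      intro j hj
      rw [← Finset.sum_sub_distrib]
      refine (Finset.abs_sum_le_sum_abs _ _).trans ?_
      rw [← nsmul_eq_mul, ← Finset.sum_const]
      refine Finset.sum_le_sum fun j' hj' => ?_
      have h := cf_pair hκ hG5 hC0 hq hδ₀0 hle hle' hj hj' M
      obtain ⟨-, h2, -⟩ := mf_JJ hq hj
      obtain ⟨-, h2', -⟩ := mf_JJ hq hj'
      have c1 := mf_cc_abs hL0 h2
      have c2 := mf_cc_abs hL0 h2'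
      have c3 : |cc L j * cc L j'| ≤ 1 := by
        rw [abs_mul]
        calc _ ≤ (1 : ℝ) * 1 := mul_le_mul c1 c2 (abs_nonneg _) (by norm_num)
          _ = 1 := by norm_num
      rw [← mul_sub, abs_mul, abs_mul, abs_of_nonneg (by positivity : 0 ≤ 4 * (√δ * √δ'))]
      calc _ ≤ 4 * (√δ * √δ') * 1 * E :=
            mul_le_mul (mul_le_mul_of_nonneg_left c3 (by positivity)) h
            (abs_nonneg _) (by positivity)
        _ = _ := by ring
    refine (Finset.abs_sum_le_sum_abs _ _).trans ?_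
    refine (Finset.sum_le_sum hterm).trans ?_
    rw [Finset.sum_const, nsmul_eq_mul]
    -- numerical estimate of the error
    have hcard : ((JJ L q).card : ℝ) ≤ (NN L : ℝ) ^ 2 := mf_card
    have hexp : Real.exp L ^ 32 = q := by
      rw [← Real.exp_nat_mul]
      push_cast
      rw [hLq, Real.exp_log hqr]
    have hN := mf_NN_le hL0.le
    have hN22 : (NN L : ℝ) ^ 22 ≤ 2 ^ 22 * q := by
      calc (NN L : ℝ) ^ 22 ≤ (2 * Real.exp L) ^ 22 := pow_le_pow_left₀ hNpos.le hN 22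
        _ = 2 ^ 22 * Real.exp L ^ 22 := by ring
        _ ≤ 2 ^ 22 * Real.exp L ^ 32 := by
            gcongr
            · exact Real.one_le_exp hL0.le
            · norm_num
        _ = _ := by rw [hexp]
    have hss : 0 < √δ * √δ' := by positivity
    have hdd : δ * δ' = (√δ * √δ') ^ 2 := by
      rw [mul_pow, Real.sq_sqrt hδ0.le, Real.sq_sqrt hδ0'.le]
    have hE2 : ((JJ L q).card : ℝ) * (((JJ L q).card : ℝ) * (4 * (√δ * √δ') * E)) ≤
        Real.pi ^ 2 * C5 * (NN L : ℝ) ^ 22 / (q ^ 8 * δ₀ ^ 8 * (√δ * √δ')) := by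
      have hEeq : E = C5 * (NN L : ℝ) ^ 16 / (q ^ 8 * δ₀ ^ 8) *
          (Real.pi ^ 2 * (NN L : ℝ) ^ 2 / (4 * (√δ * √δ') ^ 2)) := by
        rw [hE, ← hdd]
        field_simp
        ring
      calc _ ≤ (NN L : ℝ) ^ 2 * ((NN L : ℝ) ^ 2 * (4 * (√δ * √δ') * E)) := by gcongr
        _ = _ := by
            rw [hEeq]
            field_simp
    refine hE2.trans ?_
    have hδ08 : δ₀ ^ 8 = 1 / q ^ 4 := by
      rw [hδ₀, div_pow, one_pow]
      congr 1
      calc (√(q : ℝ)) ^ 8 = ((√(q : ℝ)) ^ 2) ^ 4 := by ring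
        _ = _ := by rw [Real.sq_sqrt hqr.le]
    have hss2 : √δ * √δ' = Real.exp ((v + v') / 2) / √q := by
      rw [hδ, hδ', ← Real.sqrt_mul (by positivity), div_mul_div_comm, Real.sqrt_div (by positivity),
        Real.sqrt_mul_self hsq.le, ← Real.exp_add]
      congr 1
      rw [Real.sqrt_eq_iff_mul_self_eq (by positivity) (by positivity), ← Real.exp_add]
      congr 1
      ring
    rw [hδ08, hss2]
    have hq3 : √(q : ℝ) ≤ q := by
      rw [Real.sqrt_le_left (by positivity), sq]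
      exact le_mul_of_one_le_left hqr.le hq1
    calc Real.pi ^ 2 * C5 * (NN L : ℝ) ^ 22 /
          (q ^ 8 * (1 / q ^ 4) * (Real.exp ((v + v') / 2) / √q)) ≤
          Real.pi ^ 2 * C5 * (2 ^ 22 * q) /
          (q ^ 8 * (1 / q ^ 4) * (Real.exp ((v + v') / 2) / √q)) := by gcongr
      _ = Real.pi ^ 2 * C5 * 2 ^ 22 * Real.exp (-(v + v') / 2) / q * (√q / q ^ 2) := by
          have : Real.exp (-(v + v') / 2) = (Real.exp ((v + v') / 2))⁻¹ := by
            rw [← Real.exp_neg]; congr 1; ring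
          rw [this]
          field_simp
      _ ≤ Real.pi ^ 2 * C5 * 2 ^ 22 * Real.exp (-(v + v') / 2) / q * 1 := by
          refine mul_le_mul_of_nonneg_left ?_ (by positivity)
          rw [div_le_one (by positivity)]
          exact hq3.trans (by rw [sq]; exact le_mul_of_one_le_left hqr.le hq1)
      _ = _ := by rw [mul_one]
  refine le_of_tendsto_of_tendsto' ((hlim2.sub ?_).norm) tendsto_const_nhds hbound
  exact (Complex.continuous_ofReal.tendsto _).comp ((hDlim.const_mul ρ).const_mul _)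

end Pool.Agent.SQ
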