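import Pool.Agent.Lib_helper44.SQ.FWA

/-!
# Fixed window, part B: the smoothed window
-/

noncomputable section

namespace Pool.Agent.SQS

open Complex MeasureTheory Filter Topology Pool.Agent.GRH
open scoped ENNReal Real FourierTransform

/-- multiplication formula -/
theorem hat_mult {f w : ℝ → ℂ} (hf : Integrable f) (hw : Integrable w) :
    ∫ t, hat f t * w t = ∫ v, f v * hat w v := by
  have hprod : Integrable (Function.uncurry fun (t v : ℝ) => f v * cexp (t * v * I) * w t)
      (volume.prod volume) := by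
    have h1 : Integrable (fun p : ℝ × ℝ => w p.1 * f p.2) (volume.prod volume) := hw.mul_prod hf
    have h2 : Integrable (fun p : ℝ × ℝ => (w p.1 * f p.2) * cexp (p.1 * p.2 * I))
        (volume.prod volume) := by
      refine h1.mul_bdd (c := 1) (Continuous.aestronglyMeasurable (by fun_prop))
        (Eventually.of_forall fun p => ?_)
      rw [expI_norm]
    refine h2.congr (Eventually.of_forall fun p => ?_)
    simp only [Function.uncurry]
    ring
  have e1 : ∫ t, hat f t * w t = ∫ t : ℝ, ∫ v : ℝ, f v * cexp (t * v * I) * w t := by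
    congr 1; funext t
    unfold hat
    rw [← integral_mul_const]
  have e2 : ∫ v, f v * hat w v = ∫ v : ℝ, ∫ t : ℝ, f v * cexp (t * v * I) * w t := by
    congr 1; funext v
    unfold hat
    rw [← integral_const_mul]
    congr 1; funext t
    have : (v : ℂ) * t * I = t * v * I := by ring
    rw [this]; ring
  rw [e1, e2, integral_integral_swap hprod]

/-- the smoothed window -/
def wker (X a l t : ℝ) : ℝ := ∫ s in a..(a + l), fej X (t - s)

theorem wker_eq {X a l : ℝ} (hl : 0 ≤ l) (t : ℝ) :
    wker X a l t = ∫ s in Set.Ioc a (a + l), fej X (t - s) := by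
  unfold wker; rw [intervalIntegral.integral_of_le (by linarith)]

theorem wker_prod {X : ℝ} (hX : 0 < X) (a l : ℝ) :
    Integrable (Function.uncurry fun (t s : ℝ) => fej X (t - s))
      (volume.prod (volume.restrict (Set.Ioc a (a + l)))) := by
  have hm : AEStronglyMeasurable (Function.uncurry fun (t s : ℝ) => fej X (t - s))
      (volume.prod (volume.restrict (Set.Ioc a (a + l)))) := by
    have h1 := fej_continuous X
    have : Continuous (Function.uncurry fun (t s : ℝ) => fej X (t - s)) := by
      unfold Function.uncurry; fun_prop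
    exact this.aestronglyMeasurable
  rw [integrable_prod_iff' hm]
  refine ⟨Eventually.of_forall fun s => ?_, ?_⟩
  · exact (fej_integrable hX).comp_sub_right s
  · have : (fun s : ℝ => ∫ t : ℝ, ‖Function.uncurry (fun (t s : ℝ) => fej X (t - s)) (t, s)‖) =
        fun _ => (1 : ℝ) := by
      funext s
      simp only [Function.uncurry]
      rw [integral_sub_right_eq_self (fun x => ‖fej X x‖) s, ← fej_integral hX]
      congr 1; funext x
      rw [Real.norm_of_nonneg (fej_nonneg hX x)]
    rw [this]
    exact integrable_const _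

theorem wker_integrable {X : ℝ} (hX : 0 < X) (a : ℝ) {l : ℝ} (hl : 0 ≤ l) :
    Integrable (wker X a l) := by
  have := (wker_prod hX a l).integral_prod_left
  refine this.congr (Eventually.of_forall fun t => ?_)
  simp only [Function.uncurry]
  rw [wker_eq hl]

theorem wker_nonneg {X : ℝ} (hX : 0 < X) (a : ℝ) {l : ℝ} (hl : 0 ≤ l) (t : ℝ) :
    0 ≤ wker X a l t := by
  rw [wker_eq hl]
  exact integral_nonneg fun s => fej_nonneg hX _

theorem wker_integral {X : ℝ} (hX : 0 < X) (a : ℝ) {l : ℝ} (hl : 0 ≤ l) :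
    ∫ t, wker X a l t = l := by
  have e : (wker X a l) = fun t => ∫ s in Set.Ioc a (a + l), fej X (t - s) := by
    funext t; rw [wker_eq hl]
  rw [e, integral_integral_swap (wker_prod hX a l)]
  have : (fun s : ℝ => ∫ t : ℝ, fej X (t - s)) = fun _ => (1 : ℝ) := by
    funext s
    rw [integral_sub_right_eq_self (fun x => fej X x) s, fej_integral hX]
  rw [this]
  simp [hl]

theorem hat_wker {X : ℝ} (hX : 0 < X) (a : ℝ) {l : ℝ} (hl : 0 ≤ l) (v : ℝ) :
    hat (fun t => (wker X a l t : ℂ)) v = tri X v * (win l v * cexp (a * v * I)) := by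
  have hprod : Integrable (Function.uncurry fun (t s : ℝ) =>
      (fej X (t - s) : ℂ) * cexp (v * t * I))
      (volume.prod (volume.restrict (Set.Ioc a (a + l)))) := by
    have h1 := (wker_prod hX a l).ofReal (𝕜 := ℂ)
    refine (h1.mul_bdd (c := 1) (g := fun p : ℝ × ℝ => cexp (v * p.1 * I))
      (Continuous.aestronglyMeasurable (by fun_prop))
        (Eventually.of_forall fun p => ?_)).congr (Eventually.of_forall fun p => ?_)
    · rw [expI_norm]
    · simp only [Function.uncurry]; rfl
  have e1 : hat (fun t => (wker X a l t : ℂ)) v =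
      ∫ t : ℝ, ∫ s in Set.Ioc a (a + l), (fej X (t - s) : ℂ) * cexp (v * t * I) := by
    unfold hat
    congr 1; funext t
    show ((wker X a l t : ℝ) : ℂ) * cexp (v * t * I) = _
    rw [wker_eq hl, ← integral_complex_ofReal, ← integral_mul_const]
  rw [e1, integral_integral_swap hprod]
  have e2 : ∀ s : ℝ, ∫ t : ℝ, (fej X (t - s) : ℂ) * cexp (v * t * I) =
      tri X v * cexp (v * s * I) := by
    intro s
    have h1 := integral_sub_right_eq_self (μ := volume)
      (fun x : ℝ => (fej X x : ℂ) * cexp (v * ((x : ℂ) + s) * I)) s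
    have h2 : (fun t : ℝ => (fej X (t - s) : ℂ) * cexp (v * t * I)) =
        fun t : ℝ => (fej X (t - s) : ℂ) * cexp (v * (((t - s : ℝ) : ℂ) + s) * I) := by
      funext t
      congr 2
      push_cast
      ring
    rw [h2, h1, ← hat_fej hX v, hat, ← integral_mul_const]
    congr 1
    funext x
    rw [mul_assoc (fej X x : ℂ), ← Complex.exp_add]
    congr 2
    ring
  simp_rw [e2]
  rw [integral_const_mul]
  congr 1
  rw [← intervalIntegral.integral_of_le (by linarith : a ≤ a + l)]
  have h3 : ∫ s in a..(a + l), cexp (v * s * I) =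
      ∫ s in (0 : ℝ)..l, cexp (v * ((a + s : ℝ) : ℂ) * I) := by
    rw [intervalIntegral.integral_comp_add_left (fun s : ℝ => cexp (v * (s : ℂ) * I)) a]
    simp
  rw [h3]
  unfold win
  rw [← intervalIntegral.integral_mul_const]
  congr 1
  funext s
  rw [← Complex.exp_add]
  congr 1
  push_cast
  ring

theorem fej_tail {X δ : ℝ} (hX : 0 < X) (hδ : 0 < δ) :
    ∫ x in Set.Ioi δ, fej X x ≤ 2 / (π * X) / δ := by
  have hpi := Real.pi_pos
  have h1 := integrableOn_Ioi_rpow_of_lt (a := (-2 : ℝ)) (by norm_num) hδ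
  have h2 := integral_Ioi_rpow_of_lt (a := (-2 : ℝ)) (by norm_num) hδ
  calc ∫ x in Set.Ioi δ, fej X x ≤ ∫ x in Set.Ioi δ, 2 / (π * X) * x ^ (-2 : ℝ) := by
        refine setIntegral_mono_on (fej_integrable hX).integrableOn (h1.const_mul _)
          measurableSet_Ioi fun x hx => ?_
        have hx0 : 0 < x := hδ.trans hx
        refine (fej_le hX hx0.ne').trans (le_of_eq ?_)
        rw [Real.rpow_neg hx0.le, div_eq_mul_inv (2 / (π * X))]
        norm_num
    _ = 2 / (π * X) / δ := by
        rw [integral_const_mul, h2]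
        have : (-2 : ℝ) + 1 = -1 := by norm_num
        rw [this, Real.rpow_neg_one]
        field_simp

theorem fej_tail2 {X δ : ℝ} (hX : 0 < X) (hδ : 0 < δ) :
    ∫ x in {x : ℝ | δ ≤ |x|}, fej X x ≤ 4 / (π * X) / δ := by
  have hset : {x : ℝ | δ ≤ |x|} = Set.Iic (-δ) ∪ Set.Ici δ := by
    ext x
    simp only [Set.mem_ofPred_eq, le_abs, Set.mem_union, Set.mem_Iic, Set.mem_Ici]
    constructor
    · rintro (h | h)
      · right; exact h
      · left; linarith
    · rintro (h | h)
      · right; linarith
      · left; exact h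
  have hi := fej_integrable hX
  have hdis : Disjoint (Set.Iic (-δ)) (Set.Ici δ) := by
    rw [Set.disjoint_left]
    intro x h1 h2
    rw [Set.mem_Iic] at h1
    rw [Set.mem_Ici] at h2
    linarith
  rw [hset, setIntegral_union hdis measurableSet_Ici hi.integrableOn hi.integrableOn,
    integral_Ici_eq_integral_Ioi]
  have h3 : ∫ x in Set.Iic (-δ), fej X x = ∫ x in Set.Ioi δ, fej X x := by
    rw [← integral_comp_neg_Ioi]
    congr 1
    funext x
    exact fej_neg hX x
  rw [h3]
  have h4 := fej_tail hX hδ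
  have h5 : 4 / (π * X) / δ = 2 / (π * X) / δ + 2 / (π * X) / δ := by ring
  rw [h5]
  exact add_le_add h4 h4

/-- the mass of the window outside `(t₀, t₀+H)` -/
theorem wker_tail {X : ℝ} (hX : 0 < X) (t₀ : ℝ) {H : ℝ} (hH : 0 < H) :
    ∫ t in (Set.Ioo t₀ (t₀ + H))ᶜ, wker X (t₀ + H / 4) (H / 2) t ≤ 8 / (π * X) := by
  have hpi := Real.pi_pos
  set J : Set ℝ := Set.Ioc (t₀ + H / 4) (t₀ + H / 4 + H / 2) with hJ
  have e : (wker X (t₀ + H / 4) (H / 2)) = fun t => ∫ s in J, fej X (t - s) := by
    funext t; rw [wker_eq (by linarith)]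
  have hprod : Integrable (Function.uncurry fun (t s : ℝ) => fej X (t - s))
      ((volume.restrict (Set.Ioo t₀ (t₀ + H))ᶜ).prod (volume.restrict J)) := by
    have h1 := wker_prod hX (t₀ + H / 4) (H / 2)
    have h2 : ((volume.restrict (Set.Ioo t₀ (t₀ + H))ᶜ).prod (volume.restrict J)) =
        ((volume.prod (volume.restrict J)).restrict ((Set.Ioo t₀ (t₀ + H))ᶜ ×ˢ Set.univ)) := by
      rw [← Measure.prod_restrict, Measure.restrict_univ]
    rw [h2]
    exact h1.restrict
  rw [e, integral_integral_swap hprod]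
  have hb : ∀ s ∈ J, ∫ t in (Set.Ioo t₀ (t₀ + H))ᶜ, fej X (t - s) ≤ 4 / (π * X) / (H / 4) := by
    intro s hs
    have hsi : Integrable (fun t => fej X (t - s)) := (fej_integrable hX).comp_sub_right s
    have h1 : ∫ t in (Set.Ioo t₀ (t₀ + H))ᶜ, fej X (t - s) ≤
        ∫ t in {t : ℝ | H / 4 ≤ |t - s|}, fej X (t - s) := by
      refine setIntegral_mono_set hsi.integrableOn
        (Eventually.of_forall fun t => fej_nonneg hX _) (LE.le.eventuallyLE ?_)
      intro t ht
      rw [Set.mem_compl_iff, Set.mem_Ioo, not_and_or, not_lt, not_lt] at ht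
      rw [Set.mem_ofPred_eq, le_abs]
      rcases ht with ht | ht
      · right; linarith [hs.1]
      · left; linarith [hs.2]
    refine h1.trans ?_
    have hms : MeasurableSet {x : ℝ | H / 4 ≤ |x|} :=
      measurableSet_le measurable_const measurable_norm
    have hms' : MeasurableSet {t : ℝ | H / 4 ≤ |t - s|} :=
      measurableSet_le measurable_const (by fun_prop)
    have h2 : ∫ t in {t : ℝ | H / 4 ≤ |t - s|}, fej X (t - s) =
        ∫ x in {x : ℝ | H / 4 ≤ |x|}, fej X x := by
      rw [← integral_indicator hms, ← integral_indicator hms',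
        ← integral_sub_right_eq_self (μ := volume)
          (({x : ℝ | H / 4 ≤ |x|}).indicator fun x => fej X x) s]
      congr 1
    rw [h2]
    exact fej_tail2 hX (by linarith)
  calc ∫ s in J, ∫ t in (Set.Ioo t₀ (t₀ + H))ᶜ, fej X (t - s)
      ≤ ∫ s in J, 4 / (π * X) / (H / 4) := by
        refine setIntegral_mono_on ?_ (integrable_const _) measurableSet_Ioc hb
        exact hprod.integral_prod_right
    _ = 8 / (π * X) := by
        rw [setIntegral_const, hJ]
        simp only [smul_eq_mul]
        rw [Measure.real, Real.volume_Ioc, ENNReal.toReal_ofReal (by linarith)]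
        have : t₀ + H / 4 + H / 2 - (t₀ + H / 4) = H / 2 := by ring
        rw [this]
        field_simp
        norm_num

/-- `∫ |W|² ≤ 2π l` -/
theorem Wsq_le {X : ℝ} (hX : 0 < X) (a : ℝ) {l : ℝ} (hl : 0 ≤ l) :
    ∫ v, ‖(tri X v : ℂ) * (win l v * cexp (a * v * I))‖ ^ 2 ≤ 2 * π * l := by
  obtain ⟨h1, h2⟩ := win_sq hl
  rw [← h2]
  refine integral_mono_of_nonneg (Eventually.of_forall fun v => by positivity) h1
    (Eventually.of_forall fun v => ?_)
  show ‖(tri X v : ℂ) * (win l v * cexp (a * v * I))‖ ^ 2 ≤ ‖win l v‖ ^ 2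
  rw [norm_mul, norm_mul, expI_norm, mul_one, Complex.norm_real,
    Real.norm_of_nonneg (tri_nonneg X v)]
  have := tri_le hX v
  have h3 := tri_nonneg X v
  have h4 : tri X v * ‖win l v‖ ≤ 1 * ‖win l v‖ := by gcongr
  rw [one_mul] at h4
  have h5 : 0 ≤ tri X v * ‖win l v‖ := by positivity
  gcongr

end Pool.Agent.SQS
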