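import Pool.Agent.Lib_helper44.SQ.FWB

/-!
# Fixed window, part C: the main inequality for one character
-/

noncomputable section

namespace Pool.Agent.SQS

open Complex MeasureTheory Filter Topology Pool.Agent.GRH
open scoped ENNReal Real FourierTransform

theorem norm_hat_le (h : ℝ → ℂ) (t : ℝ) : ‖hat h t‖ ≤ ∫ u, ‖h u‖ := by
  unfold hat
  refine (norm_integral_le_integral_norm _).trans (le_of_eq ?_)
  congr 1; funext u
  rw [norm_mul, expI_norm, mul_one]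

/-- bounded continuous times integrable -/
theorem bdd_mul_w {F : ℝ → ℂ} (hF : Continuous F) {B : ℝ} (hB : ∀ t, ‖F t‖ ≤ B) {w : ℝ → ℝ}
    (hw : Integrable w) : Integrable (fun t => F t * (w t : ℂ)) :=
  (hw.ofReal (𝕜 := ℂ)).bdd_mul hF.aestronglyMeasurable (Eventually.of_forall hB)

theorem hat_mul_w {f : ℝ → ℂ} (hf : Integrable f) {w : ℝ → ℝ} (hw : Integrable w) :
    Integrable (fun t => hat f t * (w t : ℂ)) :=
  bdd_mul_w (continuous_hat hf) (norm_hat_le f) hw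

theorem norm_hat_mul_w {f : ℝ → ℂ} (hf : Integrable f) {w : ℝ → ℝ} (hw : Integrable w)
    (hw0 : ∀ t, 0 ≤ w t) : Integrable (fun t => ‖hat f t‖ * w t) := by
  refine (hat_mul_w hf hw).norm.congr (Eventually.of_forall fun t => ?_)
  show ‖hat f t * (w t : ℂ)‖ = ‖hat f t‖ * w t
  rw [norm_mul, Complex.norm_real, Real.norm_of_nonneg (hw0 t)]

theorem sq_hat_mul_w {f : ℝ → ℂ} (hf : Integrable f) {w : ℝ → ℝ} (hw : Integrable w)
    (hw0 : ∀ t, 0 ≤ w t) : Integrable (fun t => ‖hat f t‖ ^ 2 * w t) := by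
  have hc := (continuous_hat hf).norm
  have h1 := (norm_hat_mul_w hf hw hw0).bdd_mul (c := ∫ u, ‖f u‖) hc.aestronglyMeasurable
    (Eventually.of_forall fun t => by rw [norm_norm]; exact norm_hat_le f t)
  refine h1.congr (Eventually.of_forall fun t => ?_)
  show ‖hat f t‖ * (‖hat f t‖ * w t) = ‖hat f t‖ ^ 2 * w t
  ring

/-- the main inequality for a character without odd zeros in the window -/
theorem fw_main {q : ℕ} [NeZero q] (hq : 2 ≤ q) {κ : ℕ} (β : ℕ → ℝ) (N : ℕ)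
    (χ : DirichletCharacter ℂ q) (hχ : χ.IsPrimitive) (hχ1 : χ ≠ 1) (hκ : IsPar κ χ)
    {t₀ H : ℝ} (h : ∀ s ∈ Set.Ioo t₀ (t₀ + H), s ∉ oddZ χ)
    {w : ℝ → ℝ} (hw : Integrable w) (hw0 : ∀ t, 0 ≤ w t) :
    ‖∫ t : ℝ, Gammaℝ (1 / 2 + κ + t * I) * (w t : ℂ)‖ ≤
      ‖∫ v, fd κ β N χ v * hat (fun t => (w t : ℂ)) v‖ +
      ‖∫ v, (Dd κ β N χ v - dens₁ κ v) * hat (fun t => (w t : ℂ)) v‖ +
      2 * ∫ t in (Set.Ioo t₀ (t₀ + H))ᶜ, ‖hat (fd κ β N χ) t‖ * w t := by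
  obtain ⟨θ, hθ, hph⟩ := phase_odd hq χ hχ t₀ (t₀ + H) h
  set J : Set ℝ := Set.Ioo t₀ (t₀ + H) with hJ
  have hJm : MeasurableSet J := measurableSet_Ioo
  have nf := fd_nice hq β N χ hχ1 hκ
  have nD := Dd_nice hq β N χ hχ1 hκ
  have n1 := dens₁_nice hκ.le
  have hwc : Integrable (fun t => (w t : ℂ)) := hw.ofReal
  rw [← hat_mult nf.int hwc, ← hat_mult (nD.sub n1).int hwc]
  have iF := hat_mul_w nf.int hw
  have iG := hat_mul_w nD.int hw
  have i1 := hat_mul_w n1.int hw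
  have iY := norm_hat_mul_w nf.int hw hw0
  have hγ : (fun t : ℝ => Gammaℝ (1 / 2 + κ + t * I) * (w t : ℂ)) =
      fun t => hat (dens₁ κ) t * (w t : ℂ) := by
    funext t; rw [hat_dens₁]
  rw [hγ]
  have e0 : ∫ t, hat (fun u => Dd κ β N χ u - dens₁ κ u) t * (w t : ℂ) =
      (∫ t, hat (Dd κ β N χ) t * (w t : ℂ)) - ∫ t, hat (dens₁ κ) t * (w t : ℂ) := by
    rw [← integral_sub iG i1]
    congr 1; funext t
    rw [hat_sub nD.int n1.int]; ring
  rw [e0]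
  -- splitting
  have sF := integral_add_compl hJm iF
  have sG := integral_add_compl hJm iG
  have e1 : ∫ t in J, hat (fd κ β N χ) t * (w t : ℂ) =
      θ * ((∫ t in J, ‖hat (fd κ β N χ) t‖ * w t : ℝ) : ℂ) := by
    rw [← integral_complex_ofReal, ← integral_const_mul]
    refine setIntegral_congr_fun hJm fun s hs => ?_
    show hat (fd κ β N χ) s * (w s : ℂ) = θ * ((‖hat (fd κ β N χ) s‖ * w s : ℝ) : ℂ)
    rw [norm_hat_fd hq β N χ hχ1 hκ, hat_Dd hq β N χ hχ1 hκ, hat_fd hq β N χ hχ1 hκ,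
      hph s hs, Complex.mul_conj, Complex.normSq_eq_norm_sq]
    simp only [norm_mul]
    push_cast
    ring
  set P : ℝ := ∫ t in J, ‖hat (fd κ β N χ) t‖ * w t with hP
  set R : ℝ := ∫ t in Jᶜ, ‖hat (fd κ β N χ) t‖ * w t with hR
  have hP0 : 0 ≤ P := integral_nonneg fun t => mul_nonneg (norm_nonneg _) (hw0 t)
  have hPn : ‖∫ t in J, hat (fd κ β N χ) t * (w t : ℂ)‖ = P := by
    rw [e1, norm_mul, hθ, one_mul, Complex.norm_real, Real.norm_of_nonneg hP0]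
  have hRn : ‖∫ t in Jᶜ, hat (fd κ β N χ) t * (w t : ℂ)‖ ≤ R := by
    refine (norm_integral_le_integral_norm _).trans (le_of_eq ?_)
    rw [hR]
    congr 1; funext t
    rw [norm_mul, Complex.norm_real, Real.norm_of_nonneg (hw0 t)]
  have hGn : ∀ A : Set ℝ, ‖∫ t in A, hat (Dd κ β N χ) t * (w t : ℂ)‖ ≤
      ∫ t in A, ‖hat (fd κ β N χ) t‖ * w t := by
    intro A
    refine (norm_integral_le_integral_norm _).trans (le_of_eq ?_)
    congr 1; funext t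
    rw [norm_mul, Complex.norm_real, Real.norm_of_nonneg (hw0 t), norm_hat_fd hq β N χ hχ1 hκ]
  have f1 : P ≤ ‖∫ t, hat (fd κ β N χ) t * (w t : ℂ)‖ + R := by
    rw [← hPn]
    have : ∫ t in J, hat (fd κ β N χ) t * (w t : ℂ) =
        (∫ t, hat (fd κ β N χ) t * (w t : ℂ)) - ∫ t in Jᶜ, hat (fd κ β N χ) t * (w t : ℂ) := by
      rw [← sF]; ring
    rw [this]
    exact (norm_sub_le _ _).trans (by gcongr)
  have f2 : ‖∫ t, hat (Dd κ β N χ) t * (w t : ℂ)‖ ≤ P + R := by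
    rw [← sG]
    exact (norm_add_le _ _).trans (add_le_add (hGn J) (hGn Jᶜ))
  have f3 : ‖∫ t, hat (dens₁ κ) t * (w t : ℂ)‖ ≤
      ‖∫ t, hat (Dd κ β N χ) t * (w t : ℂ)‖ +
      ‖(∫ t, hat (Dd κ β N χ) t * (w t : ℂ)) - ∫ t, hat (dens₁ κ) t * (w t : ℂ)‖ := by
    have := norm_sub_le (∫ t, hat (Dd κ β N χ) t * (w t : ℂ))
      ((∫ t, hat (Dd κ β N χ) t * (w t : ℂ)) - ∫ t, hat (dens₁ κ) t * (w t : ℂ))
    simpa using this
  linarith

/-- quadratic form of the main inequality -/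
theorem fw_sq {q : ℕ} [NeZero q] (hq : 2 ≤ q) {κ : ℕ} (β : ℕ → ℝ) (N : ℕ)
    (χ : DirichletCharacter ℂ q) (hχ : χ.IsPrimitive) (hχ1 : χ ≠ 1) (hκ : IsPar κ χ)
    {t₀ H : ℝ} (h : ∀ s ∈ Set.Ioo t₀ (t₀ + H), s ∉ oddZ χ)
    {w : ℝ → ℝ} (hw : Integrable w) (hw0 : ∀ t, 0 ≤ w t) {p ω : ℝ} (hp : 0 < p) (hω : 0 < ω)
    (hωw : ∫ t in (Set.Ioo t₀ (t₀ + H))ᶜ, w t ≤ ω)
    (hlow : p ≤ ‖∫ t : ℝ, Gammaℝ (1 / 2 + κ + t * I) * (w t : ℂ)‖) :
    p ^ 2 / 2 ≤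
      2 * ‖∫ v, fd κ β N χ v * hat (fun t => (w t : ℂ)) v‖ ^ 2 +
      2 * ‖∫ v, (Dd κ β N χ v - dens₁ κ v) * hat (fun t => (w t : ℂ)) v‖ ^ 2 +
      4 * ω * ∫ t in (Set.Ioo t₀ (t₀ + H))ᶜ, ‖hat (fd κ β N χ) t‖ ^ 2 * w t := by
  have hm := hlow.trans (fw_main hq β N χ hχ hχ1 hκ h hw hw0)
  have nf := fd_nice hq β N χ hχ1 hκ
  set A := ‖∫ v, fd κ β N χ v * hat (fun t => (w t : ℂ)) v‖ with hA
  set B := ‖∫ v, (Dd κ β N χ v - dens₁ κ v) * hat (fun t => (w t : ℂ)) v‖ with hB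
  set R := ∫ t in (Set.Ioo t₀ (t₀ + H))ᶜ, ‖hat (fd κ β N χ) t‖ * w t with hR
  set V := ∫ t in (Set.Ioo t₀ (t₀ + H))ᶜ, ‖hat (fd κ β N χ) t‖ ^ 2 * w t with hV
  set lam : ℝ := p / (4 * ω) with hlam
  have hlam0 : 0 < lam := by positivity
  have h1 : 2 * R ≤ lam * ω + V / lam := by
    have h2 : 2 * R ≤ ∫ t in (Set.Ioo t₀ (t₀ + H))ᶜ,
        (lam * w t + (‖hat (fd κ β N χ) t‖ ^ 2 * w t) / lam) := by
      rw [hR, ← integral_const_mul]
      refine integral_mono ((norm_hat_mul_w nf.int hw hw0).const_mul 2).integrableOn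
        ((hw.const_mul lam).add ((sq_hat_mul_w nf.int hw hw0).div_const lam)).integrableOn
        fun t => ?_
      show 2 * (‖hat (fd κ β N χ) t‖ * w t) ≤ lam * w t + (‖hat (fd κ β N χ) t‖ ^ 2 * w t) / lam
      have h3 : 2 * ‖hat (fd κ β N χ) t‖ ≤ lam + ‖hat (fd κ β N χ) t‖ ^ 2 / lam := by
        rw [← sub_nonneg]
        have : lam + ‖hat (fd κ β N χ) t‖ ^ 2 / lam - 2 * ‖hat (fd κ β N χ) t‖ =
            (lam - ‖hat (fd κ β N χ) t‖) ^ 2 / lam := by field_simp; ring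
        rw [this]; positivity
      have h4 := mul_le_mul_of_nonneg_right h3 (hw0 t)
      calc 2 * (‖hat (fd κ β N χ) t‖ * w t) = 2 * ‖hat (fd κ β N χ) t‖ * w t := by ring
        _ ≤ (lam + ‖hat (fd κ β N χ) t‖ ^ 2 / lam) * w t := h4
        _ = _ := by ring
    refine h2.trans ?_
    rw [integral_add (hw.const_mul lam).integrableOn
      ((sq_hat_mul_w nf.int hw hw0).div_const lam).integrableOn, integral_const_mul, integral_div]
    gcongr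
  have h5 : lam * ω = p / 4 := by rw [hlam]; field_simp
  have h6 : V / lam = 4 * ω * V / p := by rw [hlam]; field_simp
  rw [h5, h6] at h1
  have h7 : A ≤ p / 8 + 2 * A ^ 2 / p := by
    rw [← sub_nonneg]
    have : p / 8 + 2 * A ^ 2 / p - A = (p - 4 * A) ^ 2 / (8 * p) := by field_simp; ring
    rw [this]; positivity
  have h8 : B ≤ p / 8 + 2 * B ^ 2 / p := by
    rw [← sub_nonneg]
    have : p / 8 + 2 * B ^ 2 / p - B = (p - 4 * B) ^ 2 / (8 * p) := by field_simp; ring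
    rw [this]; positivity
  have h9 : p / 2 ≤ (2 * A ^ 2 + 2 * B ^ 2 + 4 * ω * V) / p := by
    have : (2 * A ^ 2 + 2 * B ^ 2 + 4 * ω * V) / p =
      2 * A ^ 2 / p + 2 * B ^ 2 / p + 4 * ω * V / p := by ring
    rw [this]; linarith
  rw [le_div_iff₀ hp] at h9
  linarith [h9]

end Pool.Agent.SQS
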