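import Pool.Agent.Lib_helper44.SQ.FWC

/-!
# Fixed window, part D: lower bound for the Gamma factor against the smoothed window
-/

noncomputable section

namespace Pool.Agent.SQS

open Complex MeasureTheory Filter Topology Pool.Agent.GRH
open scoped ENNReal Real FourierTransform

theorem gamma_fw (κ : ℕ) (T : ℝ) (hT : 0 ≤ T) : ∃ c : ℝ, 0 < c ∧ ∃ H₀ : ℝ, 0 < H₀ ∧ H₀ ≤ 1 ∧
    ∃ A₀ : ℝ, 0 ≤ A₀ ∧ ∀ t₀ : ℝ, |t₀| ≤ T → ∀ H : ℝ, 0 < H → H ≤ H₀ → ∀ X : ℝ, 0 < X →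
      c * H - A₀ / X ≤
        ‖∫ t : ℝ, Gammaℝ (1 / 2 + κ + t * I) * (wker X (t₀ + H / 4) (H / 2) t : ℂ)‖ := by
  have hpi := Real.pi_pos
  set γ : ℝ → ℂ := fun t => Gammaℝ (1 / 2 + κ + t * I) with hγ
  have hc : Continuous γ := gamma_line_continuous κ
  have hK : IsCompact (Set.Icc (-T) (T + 1)) := isCompact_Icc
  obtain ⟨t₁, ht₁, hmin⟩ := hK.exists_isMinOn ⟨0, by constructor <;> linarith⟩
    (hc.norm.continuousOn)
  set m : ℝ := ‖γ t₁‖ with hm
  have hm0 : 0 < m := norm_pos_iff.2 (gamma_line_ne_zero κ t₁)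
  have hmin' : ∀ t ∈ Set.Icc (-T) (T + 1), m ≤ ‖γ t‖ := fun t ht => hmin ht
  have huc := hK.uniformContinuousOn_of_continuous hc.continuousOn
  rw [Metric.uniformContinuousOn_iff] at huc
  obtain ⟨δ, hδ, hδ'⟩ := huc (m / 2) (by positivity)
  set M : ℝ := ∫ u, ‖dens₁ κ u‖ with hM
  have hM0 : 0 ≤ M := integral_nonneg fun u => norm_nonneg _
  have hγM : ∀ t, ‖γ t‖ ≤ M := by
    intro t
    have : γ t = hat (dens₁ κ) t := by rw [hat_dens₁]
    rw [this]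
    exact norm_hat_le _ _
  refine ⟨m / 4, by positivity, min (δ / 2) 1, by positivity, min_le_right _ _,
    (m / 2 + M) * (8 / π), by positivity, fun t₀ ht₀ H hH hH' X hX => ?_⟩
  have hHδ : H < δ := by
    have := hH'.trans (min_le_left _ _); linarith
  have hH1 : H ≤ 1 := hH'.trans (min_le_right _ _)
  rw [abs_le] at ht₀
  set w : ℝ → ℝ := wker X (t₀ + H / 4) (H / 2) with hw
  have hwi : Integrable w := wker_integrable hX _ (by linarith)
  have hw0 : ∀ t, 0 ≤ w t := wker_nonneg hX _ (by linarith)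
  have hw1 : ∫ t, w t = H / 2 := wker_integral hX _ (by linarith)
  set J : Set ℝ := Set.Ioo t₀ (t₀ + H) with hJ
  have hJm : MeasurableSet J := measurableSet_Ioo
  set ω : ℝ := ∫ t in Jᶜ, w t with hω
  have hωle : ω ≤ 8 / (π * X) := wker_tail hX t₀ hH
  have hω0 : 0 ≤ ω := integral_nonneg fun t => hw0 t
  have hJw : ∫ t in J, w t = H / 2 - ω := by
    have := integral_add_compl hJm hwi
    rw [hw1] at this
    linarith
  have hJw0 : 0 ≤ ∫ t in J, w t := integral_nonneg fun t => hw0 t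
  have iγ : Integrable (fun t => γ t * (w t : ℂ)) := bdd_mul_w hc hγM hwi
  have s1 := integral_add_compl hJm iγ
  have hwc : Integrable (fun t => (w t : ℂ)) := hwi.ofReal
  have e1 : ∫ t in J, γ t * (w t : ℂ) =
      γ t₀ * ((∫ t in J, w t : ℝ) : ℂ) + ∫ t in J, (γ t - γ t₀) * (w t : ℂ) := by
    rw [← integral_complex_ofReal, ← integral_const_mul, ← integral_add
      (hwc.const_mul _).integrableOn]
    · congr 1; funext t; ring
    · have : (fun t => (γ t - γ t₀) * (w t : ℂ)) = fun t => γ t * (w t : ℂ) - γ t₀ * (w t : ℂ) := by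
        funext t; ring
      rw [this]
      exact (iγ.sub (hwc.const_mul _)).integrableOn
  have e2 : ‖∫ t in J, (γ t - γ t₀) * (w t : ℂ)‖ ≤ m / 2 * ∫ t in J, w t := by
    rw [← integral_const_mul]
    refine norm_integral_le_of_norm_le (hwi.const_mul _).integrableOn ?_
    rw [ae_restrict_iff' hJm]
    refine Eventually.of_forall fun t ht => ?_
    have h1 := hδ' t ⟨by linarith [ht.1], by linarith [ht.2]⟩ t₀ ⟨ht₀.1, by linarith⟩ (by
      rw [Real.dist_eq, abs_of_pos (by linarith [ht.1])]; linarith [ht.2])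
    rw [dist_eq_norm] at h1
    rw [norm_mul, Complex.norm_real, Real.norm_of_nonneg (hw0 t)]
    exact mul_le_mul_of_nonneg_right h1.le (hw0 t)
  have e3 : ‖γ t₀ * ((∫ t in J, w t : ℝ) : ℂ)‖ = ‖γ t₀‖ * ∫ t in J, w t := by
    rw [norm_mul, Complex.norm_real, Real.norm_of_nonneg hJw0]
  have e4 := hmin' t₀ ⟨ht₀.1, by linarith⟩
  have e5 : m * ∫ t in J, w t ≤ ‖γ t₀‖ * ∫ t in J, w t := by gcongr
  have e6 : ‖γ t₀ * ((∫ t in J, w t : ℝ) : ℂ)‖ ≤ ‖∫ t in J, γ t * (w t : ℂ)‖ +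
      ‖∫ t in J, (γ t - γ t₀) * (w t : ℂ)‖ := by
    rw [e1]
    have := norm_sub_le (γ t₀ * ((∫ t in J, w t : ℝ) : ℂ) + ∫ t in J, (γ t - γ t₀) * (w t : ℂ))
      (∫ t in J, (γ t - γ t₀) * (w t : ℂ))
    simpa using this
  have e7 : ‖∫ t in Jᶜ, γ t * (w t : ℂ)‖ ≤ M * ω := by
    rw [hω, ← integral_const_mul]
    refine norm_integral_le_of_norm_le (hwi.const_mul _).integrableOn
      (Eventually.of_forall fun t => ?_)
    rw [norm_mul, Complex.norm_real, Real.norm_of_nonneg (hw0 t)]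
    exact mul_le_mul_of_nonneg_right (hγM t) (hw0 t)
  have e8 : ‖∫ t in J, γ t * (w t : ℂ)‖ ≤ ‖∫ t, γ t * (w t : ℂ)‖ + ‖∫ t in Jᶜ, γ t * (w t : ℂ)‖ := by
    rw [← s1]
    have := norm_sub_le ((∫ t in J, γ t * (w t : ℂ)) + ∫ t in Jᶜ, γ t * (w t : ℂ))
      (∫ t in Jᶜ, γ t * (w t : ℂ))
    simpa using this
  have e9 : (m / 2 + M) * ω ≤ (m / 2 + M) * (8 / (π * X)) := by gcongr
  have e10 : (m / 2 + M) * (8 / π) / X = (m / 2 + M) * (8 / (π * X)) := by field_simp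
  rw [e10]
  show m / 4 * H - (m / 2 + M) * (8 / (π * X)) ≤ ‖∫ t, γ t * (w t : ℂ)‖
  rw [hJw] at e2 e3 e5
  rw [hJw] at e6
  rw [e3] at e6
  nlinarith

end Pool.Agent.SQS
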