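import Pool.Agent.Lib_helper44.SQ.FWD
import Pool.Agent.Lib_helper24.SQ.S1
import Pool.Agent.Lib_helper24.SQ.S3

/-!
# Fixed window, part E: counting the exceptional characters
-/

noncomputable section

namespace Pool.Agent.SQS

open Complex MeasureTheory Filter Topology Pool.Agent.GRH Pool.Agent.SQ
open scoped ENNReal Real

open Classical in
/-- primitive characters of parity `κ` without odd critical zero in `(t₀, t₀ + H)` -/
def badFW (q : ℕ) [NeZero q] (κ : ℕ) (t₀ H : ℝ) : Finset (DirichletCharacter ℂ q) :=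
  Finset.univ.filter fun χ => χ.IsPrimitive ∧ IsPar κ χ ∧ ∀ s ∈ Set.Ioo t₀ (t₀ + H), s ∉ oddZ χ

theorem mem_badFW {q : ℕ} [NeZero q] {κ : ℕ} {t₀ H : ℝ} {χ : DirichletCharacter ℂ q} :
    χ ∈ badFW q κ t₀ H ↔ χ.IsPrimitive ∧ IsPar κ χ ∧
      ∀ s ∈ Set.Ioo t₀ (t₀ + H), s ∉ oddZ χ := by
  classical
  unfold badFW
  rw [Finset.mem_filter]
  simp

theorem badFW_card_le_totient {q : ℕ} [NeZero q] (κ : ℕ) (t₀ H : ℝ) :
    ((badFW q κ t₀ H).card : ℝ) ≤ q.totient := by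
  have h1 : (badFW q κ t₀ H).card ≤ Fintype.card (DirichletCharacter ℂ q) :=
    Finset.card_le_univ _
  have h2 : Fintype.card (DirichletCharacter ℂ q) = q.totient := by
    rw [← Nat.card_eq_fintype_card]
    exact DirichletCharacter.card_eq_totient_of_hasEnoughRootsOfUnity ℂ q
  rw [h2] at h1
  exact_mod_cast h1

theorem badFW_mono {q : ℕ} [NeZero q] (κ : ℕ) (t₀ : ℝ) {H H' : ℝ} (h : H' ≤ H) :
    badFW q κ t₀ H ⊆ badFW q κ t₀ H' := by
  intro χ hχ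
  rw [mem_badFW] at hχ ⊢
  exact ⟨hχ.1, hχ.2.1, fun s hs => hχ.2.2 s ⟨hs.1, by linarith [hs.2]⟩⟩

theorem badFW_card {q κ : ℕ} [NeZero q] {L : ℝ} (hL : 1 ≤ L)
    (hLq : 32 * L = Real.log q) {C1 C2 C3 : ℝ} (hC1 : 0 ≤ C1) (hC2 : 0 ≤ C2) (hC3 : 0 ≤ C3)
    (s1 : ∀ W : ℝ → ℂ, Measurable W → (∃ B, ∀ v, ‖W v‖ ≤ B) → (∀ v, L / 2 < |v| → W v = 0) →
        ∀ S : Finset (DirichletCharacter ℂ q), (∀ χ ∈ S, χ.IsPrimitive ∧ IsPar κ χ) →
          ∑ χ ∈ S, ‖∫ v, fd κ (fun n => be L n) (NN L) χ v * W v‖ ^ 2 ≤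
            C1 * q.totient / L * ∫ v, ‖W v‖ ^ 2)
    (s2 : ∀ W : ℝ → ℂ, Measurable W → (∃ B, ∀ v, ‖W v‖ ≤ B) → (∀ v, L / 2 < |v| → W v = 0) →
        ∀ S : Finset (DirichletCharacter ℂ q),
          ∑ χ ∈ S, ‖∫ u, (Dd κ (fun n => be L n) (NN L) χ u - dens₁ κ u) * W u‖ ^ 2 ≤
            C2 * q.totient / L * ∫ v, ‖W v‖ ^ 2)
    (s3 : ∀ t : ℝ, ∀ S : Finset (DirichletCharacter ℂ q), (∀ χ ∈ S, χ.IsPrimitive ∧ IsPar κ χ) →
        ∑ χ ∈ S, ‖hat (fd κ (fun n => be L n) (NN L) χ) t‖ ^ 2 ≤ C3 * q.totient)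
    {c A₀ t₀ H : ℝ} (hc : 0 < c) (hH : 0 < H)
    (hlow : ∀ X : ℝ, 0 < X → c * H - A₀ / X ≤
        ‖∫ t : ℝ, Gammaℝ (1 / 2 + κ + t * I) * (wker X (t₀ + H / 4) (H / 2) t : ℂ)‖)
    (hbig : 4 * A₀ / c ≤ H * L) (hone : 1 ≤ H * L) :
    ((badFW q κ t₀ H).card : ℝ) ≤
      (16 * (π * (4 * (C1 + C2))) / c ^ 2 + 16 * (4 * (16 / π) ^ 2 * C3) / c ^ 2) *
        q.totient / (H * L) := by
  have hpi := Real.pi_pos
  have hq2 := two_le_of_log hL hLq
  have hL0 : 0 < L := by linarith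
  have hφ : (0 : ℝ) ≤ q.totient := by positivity
  set X : ℝ := L / 2 with hX
  have hX0 : 0 < X := by positivity
  set S := badFW q κ t₀ H with hS
  have hSm : ∀ χ ∈ S, χ.IsPrimitive ∧ IsPar κ χ := fun χ hχ =>
    ⟨(mem_badFW.1 hχ).1, (mem_badFW.1 hχ).2.1⟩
  set w : ℝ → ℝ := wker X (t₀ + H / 4) (H / 2) with hw
  have hwi : Integrable w := wker_integrable hX0 _ (by linarith)
  have hw0 : ∀ t, 0 ≤ w t := wker_nonneg hX0 _ (by linarith)
  set J : Set ℝ := Set.Ioo t₀ (t₀ + H) with hJ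
  set ω : ℝ := 8 / (π * X) with hω
  have hω0 : 0 < ω := by positivity
  have hωw : ∫ t in Jᶜ, w t ≤ ω := wker_tail hX0 t₀ hH
  set W : ℝ → ℂ := hat (fun t => (w t : ℂ)) with hW
  have hWe : ∀ v, W v = tri X v * (win (H / 2) v * cexp (((t₀ + H / 4 : ℝ) : ℂ) * v * I)) := by
    intro v; rw [hW, hw]; exact hat_wker hX0 _ (by linarith) v
  have hWm : Measurable W := (continuous_hat hwi.ofReal).measurable
  have hWb : ∃ B, ∀ v, ‖W v‖ ≤ B := ⟨_, fun v => norm_hat_le _ v⟩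
  have hWs : ∀ v, L / 2 < |v| → W v = 0 := by
    intro v hv
    rw [hWe, tri_zero hX0 hv.le, ofReal_zero, zero_mul]
  have hW2 : ∫ v, ‖W v‖ ^ 2 ≤ π * H := by
    have h1 := Wsq_le hX0 (t₀ + H / 4) (l := H / 2) (by linarith)
    have h2 : (fun v => ‖W v‖ ^ 2) = fun v : ℝ => ‖(tri X v : ℂ) * (win (H / 2) v *
        cexp (((t₀ + H / 4 : ℝ) : ℂ) * v * I))‖ ^ 2 := by
      funext v; rw [hWe]
    rw [h2]
    refine h1.trans (le_of_eq ?_)
    ring
  set p : ℝ := c * H / 2 with hp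
  have hp0 : 0 < p := by positivity
  have hlow' : p ≤ ‖∫ t : ℝ, Gammaℝ (1 / 2 + κ + t * I) * (w t : ℂ)‖ := by
    refine le_trans ?_ (hlow X hX0)
    have h1 : A₀ / X ≤ c * H / 2 := by
      rw [div_le_iff₀ hc] at hbig
      rw [hX, div_le_iff₀ (by positivity)]
      nlinarith
    rw [hp]; linarith
  set F : DirichletCharacter ℂ q → ℝ := fun χ => ∫ t in Jᶜ,
    ‖hat (fd κ (fun n => be L n) (NN L) χ) t‖ ^ 2 * w t with hF
  have hint : ∀ χ ∈ S, Integrable (fun t =>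
      ‖hat (fd κ (fun n => be L n) (NN L) χ) t‖ ^ 2 * w t) := by
    intro χ hχ
    obtain ⟨h1, h2⟩ := hSm χ hχ
    exact sq_hat_mul_w (fd_nice hq2 _ _ χ (prim_ne_one hq2 h1) h2).int hwi hw0
  have hone' : ∀ χ ∈ S, p ^ 2 / 2 ≤
      2 * ‖∫ v, fd κ (fun n => be L n) (NN L) χ v * W v‖ ^ 2 +
      2 * ‖∫ v, (Dd κ (fun n => be L n) (NN L) χ v - dens₁ κ v) * W v‖ ^ 2 +
      4 * ω * F χ := by
    intro χ hχ
    obtain ⟨h1, h2, h3⟩ := mem_badFW.1 hχ
    exact fw_sq hq2 _ _ χ h1 (prim_ne_one hq2 h1) h2 h3 hwi hw0 hp0 hω0 hωw hlow'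
  have hFs : ∑ χ ∈ S, F χ ≤ C3 * q.totient * ω := by
    rw [hF, ← integral_finsetSum _ fun χ hχ => (hint χ hχ).integrableOn]
    calc ∫ t in Jᶜ, ∑ χ ∈ S, ‖hat (fd κ (fun n => be L n) (NN L) χ) t‖ ^ 2 * w t
        ≤ ∫ t in Jᶜ, C3 * q.totient * w t := by
          refine integral_mono (integrable_finsetSum _ fun χ hχ => (hint χ hχ).integrableOn)
            (hwi.const_mul _).integrableOn fun t => ?_
          show ∑ χ ∈ S, ‖hat (fd κ (fun n => be L n) (NN L) χ) t‖ ^ 2 * w t ≤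
            C3 * q.totient * w t
          rw [← Finset.sum_mul]
          exact mul_le_mul_of_nonneg_right (s3 t S hSm) (hw0 t)
      _ = C3 * q.totient * ∫ t in Jᶜ, w t := by rw [integral_const_mul]
      _ ≤ C3 * q.totient * ω := by gcongr
  have h1 := s1 W hWm hWb hWs S hSm
  have h2 := s2 W hWm hWb hWs S
  have h1' : ∑ χ ∈ S, ‖∫ v, fd κ (fun n => be L n) (NN L) χ v * W v‖ ^ 2 ≤
      C1 * q.totient / L * (π * H) := h1.trans (by gcongr)
  have h2' : ∑ χ ∈ S, ‖∫ u, (Dd κ (fun n => be L n) (NN L) χ u - dens₁ κ u) * W u‖ ^ 2 ≤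
      C2 * q.totient / L * (π * H) := h2.trans (by gcongr)
  have key : (S.card : ℝ) * (p ^ 2 / 2) ≤ 2 * (C1 * q.totient / L * (π * H)) +
      2 * (C2 * q.totient / L * (π * H)) + 4 * ω * (C3 * q.totient * ω) := by
    calc (S.card : ℝ) * (p ^ 2 / 2) = ∑ χ ∈ S, p ^ 2 / 2 := by
          rw [Finset.sum_const, nsmul_eq_mul]
      _ ≤ _ := Finset.sum_le_sum hone'
      _ ≤ _ := by
          rw [Finset.sum_add_distrib, Finset.sum_add_distrib, ← Finset.mul_sum,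
            ← Finset.mul_sum, ← Finset.mul_sum]
          gcongr
  have hωe : ω = 16 / π / L := by rw [hω, hX]; field_simp; norm_num
  have hHL0 : 0 < H * L := by positivity
  have h5 : (S.card : ℝ) ≤ (2 * (C1 * q.totient / L * (π * H)) +
      2 * (C2 * q.totient / L * (π * H)) + 4 * ω * (C3 * q.totient * ω)) / (p ^ 2 / 2) := by
    rw [le_div_iff₀ (by positivity)]; exact key
  refine h5.trans ?_
  have h6 : (2 * (C1 * q.totient / L * (π * H)) +
      2 * (C2 * q.totient / L * (π * H)) + 4 * ω * (C3 * q.totient * ω)) / (p ^ 2 / 2) =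
      16 * (π * (C1 + C2)) / c ^ 2 * q.totient / (H * L) +
        8 * (4 * (16 / π) ^ 2 * C3) / c ^ 2 * q.totient / (H * L) ^ 2 := by
    rw [hωe, hp]
    field_simp
    ring
  rw [h6]
  have h7 : 8 * (4 * (16 / π) ^ 2 * C3) / c ^ 2 * q.totient / (H * L) ^ 2 ≤
      8 * (4 * (16 / π) ^ 2 * C3) / c ^ 2 * q.totient / (H * L) := by
    have h8 : (H * L) ≤ (H * L) ^ 2 := by nlinarith
    exact div_le_div_of_nonneg_left (by positivity) hHL0 h8
  have h9 : (16 * (π * (4 * (C1 + C2))) / c ^ 2 + 16 * (4 * (16 / π) ^ 2 * C3) / c ^ 2) *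
        q.totient / (H * L) =
      4 * (16 * (π * (C1 + C2)) / c ^ 2 * q.totient / (H * L)) +
        2 * (8 * (4 * (16 / π) ^ 2 * C3) / c ^ 2 * q.totient / (H * L)) := by ring
  rw [h9]
  have h10 : 0 ≤ 16 * (π * (C1 + C2)) / c ^ 2 * q.totient / (H * L) := by positivity
  have h11 : 0 ≤ 8 * (4 * (16 / π) ^ 2 * C3) / c ^ 2 * q.totient / (H * L) := by positivity
  linarith

/-- one parity -/
theorem badFW_final (hcf : CrossF) (hcd : CrossD) (hds : DiagSmall) (hdn : DiagNonneg)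
    (hf2 : MeanF2) (κ : ℕ) (hκ : κ ≤ 1) (T : ℝ) (hT : 0 ≤ T) : ∃ C : ℝ, 0 < C ∧
    ∀ (q : ℕ) [NeZero q], 2 ≤ q → ∀ t₀ H : ℝ, |t₀| ≤ T → 0 < H → H ≤ 1 →
      ((badFW q κ t₀ H).card : ℝ) ≤ C * q.totient / (H * Real.log q) := by
  have hpi := Real.pi_pos
  obtain ⟨C1, hC1, s1⟩ := S1 hcf hds hdn
  obtain ⟨C2, hC2, s2⟩ := S2 hcd
  obtain ⟨C3, hC3, s3⟩ := S3 hcf hdn hf2
  obtain ⟨c, hc, H₀, hH₀, hH₀1, A₀, hA₀, hlow⟩ := gamma_fw κ T hT
  set K : ℝ := 16 * (π * (4 * (C1 + C2))) / c ^ 2 + 16 * (4 * (16 / π) ^ 2 * C3) / c ^ 2 with hK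
  have hK0 : 0 ≤ K := by positivity
  set D : ℝ := max 1 (4 * A₀ / c) with hD
  have hD1 : 1 ≤ D := le_max_left _ _
  have hD2 : 4 * A₀ / c ≤ D := le_max_right _ _
  set M : ℝ := max K D with hM
  have hM1 : 1 ≤ M := hD1.trans (le_max_right _ _)
  -- small windows, large L
  have small : ∀ (q : ℕ) [NeZero q], ∀ L : ℝ, 1 ≤ L → 32 * L = Real.log q →
      ∀ t₀ H : ℝ, |t₀| ≤ T → 0 < H → H ≤ H₀ →
      ((badFW q κ t₀ H).card : ℝ) ≤ M * q.totient / (H * L) := by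
    intro q _ L hL hLq t₀ H ht₀ hH hH'
    have hHL : 0 < H * L := by positivity
    have hφ : (0 : ℝ) ≤ q.totient := by positivity
    rcases le_or_gt D (H * L) with hDL | hDL
    · have := badFW_card hL hLq hC1 hC2 hC3 (s1 κ hκ L q hL hLq) (s2 κ hκ L q hL hLq)
        (s3 κ hκ L q hL hLq) hc hH (fun X hX => hlow t₀ ht₀ H hH hH' X hX)
        (hD2.trans hDL) (hD1.trans hDL)
      refine this.trans ?_
      have h1 : K ≤ M := le_max_left _ _
      gcongr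
    · refine (badFW_card_le_totient κ t₀ H).trans ?_
      rw [le_div_iff₀ hHL]
      have h1 : H * L ≤ M := hDL.le.trans (le_max_right _ _)
      nlinarith
  refine ⟨32 * M / H₀, by positivity, fun q _ hq t₀ H ht₀ hH hH1 => ?_⟩
  have hφ : (0 : ℝ) ≤ q.totient := by positivity
  have hlog : 0 < Real.log q := Real.log_pos (by exact_mod_cast hq)
  have hHl : 0 < H * Real.log q := by positivity
  rcases lt_or_ge (Real.log q) 32 with hs | hb
  · refine (badFW_card_le_totient κ t₀ H).trans ?_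
    rw [le_div_iff₀ hHl]
    have h1 : H * Real.log q ≤ 32 := by nlinarith
    have h2 : 32 ≤ 32 * M / H₀ := by
      rw [le_div_iff₀ hH₀]; nlinarith
    nlinarith
  · set L : ℝ := Real.log q / 32 with hLdef
    have hL1 : 1 ≤ L := by rw [hLdef]; linarith
    have hL0 : 0 < L := by linarith
    have hL32 : 32 * L = Real.log q := by rw [hLdef]; ring
    have hlogL : Real.log q = 32 * L := hL32.symm
    set H' : ℝ := min H H₀ with hH'
    have hH'0 : 0 < H' := lt_min hH hH₀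
    have h1 := small q L hL1 hL32 t₀ H' ht₀ hH'0 (min_le_right _ _)
    have h2 : ((badFW q κ t₀ H).card : ℝ) ≤ (badFW q κ t₀ H').card := by
      exact_mod_cast Finset.card_le_card (badFW_mono κ t₀ (min_le_left _ _))
    refine h2.trans (h1.trans ?_)
    have h3 : H * H₀ ≤ H' := by
      apply le_min
      · nlinarith
      · nlinarith
    have h4 : M * q.totient / (H' * L) ≤ M * q.totient / (H * H₀ * L) :=
      div_le_div_of_nonneg_left (by positivity) (by positivity)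
        (mul_le_mul_of_nonneg_right h3 hL0.le)
    refine h4.trans (le_of_eq ?_)
    rw [hlogL]
    field_simp

end Pool.Agent.SQS
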