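import Pool.Agent.Lib_helper44.SQ.FWE
import Pool.Agent.Lib_helper44.SQ.CROSSD
import Pool.Agent.Lib_helper92.SQA.PartA
import Pool.Agent.Lib_helper92.SQA.DIAGN

/-!
# Fixed window, part F: the theorem for a fixed window, all moduli
-/

noncomputable section

namespace Pool.Agent.SQS

open Complex MeasureTheory Filter Topology Pool.Agent.GRH Pool.Agent.SQ
open scoped ENNReal Real

/-- primitive characters without odd critical zero in `(t₀, t₀ + H)` -/
def noOdd (q : ℕ) [NeZero q] (t₀ H : ℝ) : Set (DirichletCharacter ℂ q) :=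
  {χ | χ.IsPrimitive ∧ ∀ s ∈ Set.Ioo t₀ (t₀ + H), s ∉ oddZ χ}

theorem fixedWindow (T : ℝ) : ∃ C : ℝ, 0 < C ∧ ∀ (q : ℕ) [NeZero q], 2 ≤ q → ∀ t₀ H : ℝ,
    |t₀| ≤ T → 0 < H → H ≤ 1 →
      ((noOdd q t₀ H).ncard : ℝ) ≤ C * q.totient / (H * Real.log q) := by
  classical
  by_cases hT : 0 ≤ T
  swap
  · refine ⟨1, one_pos, fun q _ _ t₀ H ht₀ => ?_⟩
    exact absurd ((abs_nonneg t₀).trans ht₀) hT
  obtain ⟨C0, hC0, h0⟩ := badFW_final cross_f_pr cross_D_pr diag_small diag_nonneg mean_f2 0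
    (by norm_num) T hT
  obtain ⟨C1, hC1, h1⟩ := badFW_final cross_f_pr cross_D_pr diag_small diag_nonneg mean_f2 1
    (by norm_num) T hT
  refine ⟨C0 + C1, by positivity, fun q _ hq t₀ H ht₀ hH hH1 => ?_⟩
  have hsub : noOdd q t₀ H ⊆ ((badFW q 0 t₀ H ∪ badFW q 1 t₀ H : Finset _) : Set _) := by
    intro χ hχ
    rw [Finset.coe_union, Set.mem_union, Finset.mem_coe, Finset.mem_coe, mem_badFW, mem_badFW]
    rcases χ.even_or_odd with he | ho
    · left; exact ⟨hχ.1, Or.inl ⟨rfl, he⟩, hχ.2⟩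
    · right; exact ⟨hχ.1, Or.inr ⟨rfl, ho⟩, hχ.2⟩
  have hcard : (noOdd q t₀ H).ncard ≤ (badFW q 0 t₀ H).card + (badFW q 1 t₀ H).card := by
    refine (Set.ncard_le_ncard hsub (Finset.finite_toSet _)).trans ?_
    rw [Set.ncard_coe_finset]
    exact Finset.card_union_le _ _
  calc ((noOdd q t₀ H).ncard : ℝ) ≤ (badFW q 0 t₀ H).card + (badFW q 1 t₀ H).card := by
        exact_mod_cast hcard
    _ ≤ C0 * q.totient / (H * Real.log q) + C1 * q.totient / (H * Real.log q) :=
        add_le_add (h0 q hq t₀ H ht₀ hH hH1) (h1 q hq t₀ H ht₀ hH hH1)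
    _ = (C0 + C1) * q.totient / (H * Real.log q) := by ring

open Classical in
/-- number of cells of an interval containing no point of a small set -/
theorem cells_empty {x d : ℝ} (hd : 0 < d) {M n : ℕ} {Z : Set ℝ} (hZ : Z.encard ≤ n)
    (hM : ∀ t ∈ Z, x < t ∧ t < x + M * d) :
    M ≤ n + ((Finset.range M).filter fun j : ℕ =>
      ∀ s ∈ Set.Ioo (x + j * d) (x + j * d + d), s ∉ Z).card := by
  have hfin : Z.Finite := by
    rw [← Set.encard_lt_top_iff]
    exact hZ.trans_lt (ENat.natCast_lt_top _)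
  set F := hfin.toFinset with hF
  have hFn : F.card ≤ n := by
    rw [hfin.encard_eq_coe_toFinset_card] at hZ
    exact_mod_cast hZ
  set E := (Finset.range M).filter fun j : ℕ =>
      ∀ s ∈ Set.Ioo (x + j * d) (x + j * d + d), s ∉ Z with hE
  have h1 : (Finset.range M) \ E ⊆ F.image fun t => ⌊(t - x) / d⌋₊ := by
    intro j hj
    rw [Finset.mem_sdiff, hE, Finset.mem_filter, not_and] at hj
    have hj' := hj.2 hj.1
    push Not at hj'
    obtain ⟨s, hs, hsZ⟩ := hj'
    rw [Finset.mem_image]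
    refine ⟨s, by rw [hF]; simpa using hsZ, ?_⟩
    rw [Nat.floor_eq_iff (div_nonneg (by
      have := hs.1
      have h0 : (0 : ℝ) ≤ j * d := by positivity
      linarith) hd.le)]
    constructor
    · rw [le_div_iff₀ hd]; linarith [hs.1]
    · rw [div_lt_iff₀ hd]; linarith [hs.2]
  have h2 : ((Finset.range M) \ E).card ≤ n :=
    (Finset.card_le_card h1).trans (Finset.card_image_le.trans hFn)
  have h3 : (Finset.range M).card ≤ ((Finset.range M) \ E).card + E.card := by
    rw [← Finset.card_sdiff_add_card_inter (Finset.range M) E]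
    exact Nat.add_le_add_left (Finset.card_le_card Finset.inter_subset_right) _
  rw [Finset.card_range] at h3
  omega

/-- primitive characters with at most `n` odd critical zeros in `(x, x + h)` -/
def fewOdd (q : ℕ) [NeZero q] (x h : ℝ) (n : ℕ) : Set (DirichletCharacter ℂ q) :=
  {χ | χ.IsPrimitive ∧ (oddZ χ ∩ Set.Ioo x (x + h)).encard ≤ n}

/-- fixed interval, all scales -/
theorem shortInterval (T : ℝ) : ∃ C : ℝ, 0 < C ∧ ∀ (q : ℕ) [NeZero q], 2 ≤ q →
    ∀ x δ h : ℝ, |x| ≤ T → 0 < δ → δ ≤ h → h ≤ 1 →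
      ((fewOdd q x h ⌊h / δ⌋₊).ncard : ℝ) ≤ C * q.totient / (δ * Real.log q) := by
  classical
  obtain ⟨C, hC, hw⟩ := fixedWindow (T + 1)
  refine ⟨8 * C, by positivity, fun q _ hq x δ h hx hδ hδh hh => ?_⟩
  have hlog : 0 < Real.log q := Real.log_pos (by exact_mod_cast hq)
  have hφ : (0 : ℝ) ≤ q.totient := by positivity
  have hh0 : 0 < h := hδ.trans_le hδh
  set n : ℕ := ⌊h / δ⌋₊ with hn
  have hn1 : 1 ≤ n := by
    rw [hn, Nat.one_le_floor_iff, one_le_div hδ]; exact hδh
  have hnle : (n : ℝ) ≤ h / δ := Nat.floor_le (by positivity)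
  have hn1' : (1 : ℝ) ≤ n := by exact_mod_cast hn1
  set M : ℕ := 2 * (n + 1) with hM
  have hMpos : (0 : ℝ) < M := by rw [hM]; positivity
  set d : ℝ := h / M with hd
  have hd0 : 0 < d := by positivity
  have hMd : M * d = h := by rw [hd]; field_simp
  have hdδ : δ / 4 ≤ d := by
    rw [hd, le_div_iff₀ hMpos, hM]
    push_cast
    rw [le_div_iff₀ hδ] at hnle
    nlinarith
  have hdh : d ≤ 1 := by
    have : (1 : ℝ) ≤ M := by
      have : 1 ≤ M := by omega
      exact_mod_cast this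
    have h2 : d ≤ h := div_le_self hh0.le this
    linarith
  rw [abs_le] at hx
  set S : Finset (DirichletCharacter ℂ q) := (Set.toFinite (fewOdd q x h n)).toFinset with hS
  have hSmem : ∀ χ, χ ∈ S ↔ χ ∈ fewOdd q x h n := fun χ => by rw [hS, Set.Finite.mem_toFinset]
  have hScard : (fewOdd q x h n).ncard = S.card := Set.ncard_eq_toFinset_card _ _
  have hcell : ∀ j ∈ Finset.range M,
      ((S.filter fun χ => ∀ s ∈ Set.Ioo (x + j * d) (x + j * d + d), s ∉ oddZ χ).card : ℝ) ≤
        4 * C * q.totient / (δ * Real.log q) := by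
    intro j hj
    have hjM : (j : ℝ) ≤ M := by exact_mod_cast (Finset.mem_range.1 hj).le
    have hjd0 : 0 ≤ j * d := by positivity
    have hjd : j * d ≤ h := by rw [← hMd]; gcongr
    have h1 := hw q hq (x + j * d) d (by rw [abs_le]; constructor <;> linarith) hd0 hdh
    have h2 : (S.filter fun χ => ∀ s ∈ Set.Ioo (x + j * d) (x + j * d + d), s ∉ oddZ χ).card ≤
        (noOdd q (x + j * d) d).ncard := by
      rw [← Set.ncard_coe_finset]
      refine Set.ncard_le_ncard (fun χ hχ => ?_) (Set.toFinite _)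
      rw [Finset.mem_coe, Finset.mem_filter, hSmem] at hχ
      exact ⟨hχ.1.1, hχ.2⟩
    refine (Nat.cast_le.2 h2).trans (h1.trans ?_)
    have h3 : δ * Real.log q / 4 ≤ d * Real.log q := by nlinarith
    calc C * q.totient / (d * Real.log q) ≤ C * q.totient / (δ * Real.log q / 4) :=
          div_le_div_of_nonneg_left (by positivity) (by positivity) h3
      _ = _ := by field_simp
  have hper : ∀ χ ∈ S, (n : ℝ) + 2 ≤ ∑ j ∈ Finset.range M,
      if (∀ s ∈ Set.Ioo (x + j * d) (x + j * d + d), s ∉ oddZ χ) then (1 : ℝ) else 0 := by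
    intro χ hχ
    rw [hSmem] at hχ
    have h1 := cells_empty (x := x) hd0 (M := M) hχ.2 (fun t ht => ⟨ht.2.1, by
      rw [hMd]; exact ht.2.2⟩)
    rw [← Finset.sum_filter, Finset.sum_const, nsmul_eq_mul, mul_one]
    have h2 : ((Finset.range M).filter fun j : ℕ =>
        ∀ s ∈ Set.Ioo (x + j * d) (x + j * d + d), s ∉ oddZ χ ∩ Set.Ioo x (x + h)).card ≤
        ((Finset.range M).filter fun j : ℕ =>
        ∀ s ∈ Set.Ioo (x + j * d) (x + j * d + d), s ∉ oddZ χ).card := by
      refine Finset.card_le_card fun j hj => ?_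
      rw [Finset.mem_filter] at hj ⊢
      refine ⟨hj.1, fun s hs hsZ => hj.2 s hs ⟨hsZ, ?_, ?_⟩⟩
      · have : (0 : ℝ) ≤ j * d := by positivity
        linarith [hs.1]
      · have h5 : (j : ℝ) + 1 ≤ M := by exact_mod_cast (Finset.mem_range.1 hj.1)
        have h6 : ((j : ℝ) + 1) * d ≤ M * d := by gcongr
        rw [hMd] at h6
        linarith [hs.2]
    have h3 : n + 2 ≤ ((Finset.range M).filter fun j : ℕ =>
        ∀ s ∈ Set.Ioo (x + j * d) (x + j * d + d), s ∉ oddZ χ).card := by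
      rw [hM] at h1 h2 ⊢
      omega
    exact_mod_cast h3
  have hdouble : (S.card : ℝ) * ((n : ℝ) + 2) ≤ M * (4 * C * q.totient / (δ * Real.log q)) := by
    calc (S.card : ℝ) * ((n : ℝ) + 2) = ∑ χ ∈ S, ((n : ℝ) + 2) := by
          rw [Finset.sum_const, nsmul_eq_mul]
      _ ≤ ∑ χ ∈ S, ∑ j ∈ Finset.range M,
          if (∀ s ∈ Set.Ioo (x + j * d) (x + j * d + d), s ∉ oddZ χ) then (1 : ℝ) else 0 :=
          Finset.sum_le_sum hper
      _ = ∑ j ∈ Finset.range M, ((S.filter fun χ =>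
          ∀ s ∈ Set.Ioo (x + j * d) (x + j * d + d), s ∉ oddZ χ).card : ℝ) := by
          rw [Finset.sum_comm]
          refine Finset.sum_congr rfl fun j _ => ?_
          rw [← Finset.sum_filter, Finset.sum_const, nsmul_eq_mul, mul_one]
      _ ≤ ∑ j ∈ Finset.range M, 4 * C * q.totient / (δ * Real.log q) := Finset.sum_le_sum hcell
      _ = _ := by rw [Finset.sum_const, Finset.card_range, nsmul_eq_mul]
  rw [hScard]
  set B : ℝ := 4 * C * q.totient / (δ * Real.log q) with hB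
  have hB0 : 0 ≤ B := by positivity
  have hM2 : (M : ℝ) ≤ 2 * ((n : ℝ) + 2) := by rw [hM]; push_cast; linarith
  have h7 : (S.card : ℝ) * ((n : ℝ) + 2) ≤ (2 * B) * ((n : ℝ) + 2) := by
    refine hdouble.trans ?_
    calc M * B ≤ (2 * ((n : ℝ) + 2)) * B := by gcongr
      _ = _ := by ring
  have h8 : (S.card : ℝ) ≤ 2 * B := le_of_mul_le_mul_right h7 (by positivity)
  refine h8.trans (le_of_eq ?_)
  rw [hB]; ring

end Pool.Agent.SQS
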