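import Pool.Agent.Lib_helper44.SQ.FWF

/-!
# Fixed window, part G: one uniform theorem for all intervals of length `h` inside `[a, b]`
-/

noncomputable section

namespace Pool.Agent.SQS

open Complex MeasureTheory Filter Topology Pool.Agent.GRH Pool.Agent.SQ
open scoped ENNReal Real

/-- primitive characters with at most `n` odd critical zeros in some `(x, x+h) ⊆ [a,b]` -/
def someFew (q : ℕ) [NeZero q] (a b h : ℝ) (n : ℕ) : Set (DirichletCharacter ℂ q) :=
  {χ | χ.IsPrimitive ∧ ∃ x : ℝ, a ≤ x ∧ x + h ≤ b ∧ (oddZ χ ∩ Set.Ioo x (x + h)).encard ≤ n}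

theorem uniform_short (T : ℝ) : ∃ C : ℝ, 0 < C ∧ ∀ (q : ℕ) [NeZero q], 2 ≤ q →
    ∀ a b h H : ℝ, -T ≤ a → b ≤ T → 0 < H → H ≤ h → h ≤ 1 → h ≤ b - a →
      ((someFew q a b h ⌊h / H⌋₊).ncard : ℝ) ≤
        C * (b - a) * q.totient / (h * H * Real.log q) := by
  classical
  obtain ⟨C, hC, hw⟩ := shortInterval T
  refine ⟨6 * C, by positivity, fun q _ hq a b h H ha hb hH hHh hh hba => ?_⟩
  have hlog : 0 < Real.log q := Real.log_pos (by exact_mod_cast hq)
  have hφ : (0 : ℝ) ≤ q.totient := by positivity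
  have hh0 : 0 < h := hH.trans_le hHh
  set g : ℝ := h / 2 with hg
  have hg0 : 0 < g := by positivity
  set J : ℕ := ⌊(b - a) / g⌋₊ with hJ
  have hJle : (J : ℝ) ≤ (b - a) / g := Nat.floor_le (div_nonneg (by linarith) hg0.le)
  set P : Finset ℕ := Finset.range (J + 1) with hP
  have hcover : someFew q a b h ⌊h / H⌋₊ ⊆
      ⋃ j ∈ P.filter (fun j : ℕ => a + j * g ≤ T), fewOdd q (a + j * g) g ⌊g / (H / 2)⌋₊ := by
    rintro χ ⟨hχ, x, hx, hx', hN⟩
    set j : ℕ := ⌈(x - a) / g⌉₊ with hj
    have h1 : (x - a) / g ≤ j := Nat.le_ceil _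
    have h2 : (j : ℝ) < (x - a) / g + 1 := Nat.ceil_lt_add_one (div_nonneg (by linarith) hg0.le)
    rw [div_le_iff₀ hg0] at h1
    have h3 : (j : ℝ) * g < (x - a) + g := by
      have := mul_lt_mul_of_pos_right h2 hg0
      rw [add_mul, div_mul_cancel₀ _ hg0.ne', one_mul] at this
      exact this
    have h4 : a + j * g + g ≤ b := by rw [hg] at h3 ⊢; linarith
    have h5 : j ≤ J := by
      rw [hJ]
      apply Nat.le_floor
      rw [le_div_iff₀ hg0]
      linarith
    rw [Set.mem_iUnion₂]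
    refine ⟨j, ?_, hχ, ?_⟩
    · rw [Finset.mem_filter]
      exact ⟨Finset.mem_range.2 (by omega), by linarith⟩
    · have e1 : g / (H / 2) = h / H := by rw [hg]; field_simp
      rw [e1]
      refine le_trans (Set.encard_le_encard ?_) hN
      intro s hs
      refine ⟨hs.1, ?_, ?_⟩
      · have := hs.2.1
        linarith
      · have := hs.2.2
        rw [hg] at h3 this
        linarith
  have h6 : (someFew q a b h ⌊h / H⌋₊).ncard ≤
      ∑ j ∈ P.filter (fun j : ℕ => a + j * g ≤ T),
        (fewOdd q (a + j * g) g ⌊g / (H / 2)⌋₊).ncard := by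
    refine (Set.ncard_le_ncard hcover (Set.toFinite _)).trans ?_
    exact Finset.set_ncard_biUnion_le _ _
  have h7 : ∀ j ∈ P.filter (fun j : ℕ => a + j * g ≤ T),
      ((fewOdd q (a + j * g) g ⌊g / (H / 2)⌋₊).ncard : ℝ) ≤
        2 * C * q.totient / (H * Real.log q) := by
    intro j hj
    rw [Finset.mem_filter] at hj
    have hj0 : (0 : ℝ) ≤ j * g := by positivity
    have := hw q hq (a + j * g) (H / 2) g (by rw [abs_le]; constructor <;> linarith [hj.2])
      (by positivity) (by rw [hg]; linarith) (by rw [hg]; linarith)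
    refine this.trans (le_of_eq ?_)
    field_simp
  have h8 : ((someFew q a b h ⌊h / H⌋₊).ncard : ℝ) ≤
      (J + 1) * (2 * C * q.totient / (H * Real.log q)) := by
    calc ((someFew q a b h ⌊h / H⌋₊).ncard : ℝ)
        ≤ ∑ j ∈ P.filter (fun j : ℕ => a + j * g ≤ T),
          ((fewOdd q (a + j * g) g ⌊g / (H / 2)⌋₊).ncard : ℝ) := by exact_mod_cast h6
      _ ≤ ∑ j ∈ P.filter (fun j : ℕ => a + j * g ≤ T), 2 * C * q.totient / (H * Real.log q) :=
          Finset.sum_le_sum h7
      _ = (P.filter (fun j : ℕ => a + j * g ≤ T)).card *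
          (2 * C * q.totient / (H * Real.log q)) := by rw [Finset.sum_const, nsmul_eq_mul]
      _ ≤ (J + 1) * (2 * C * q.totient / (H * Real.log q)) := by
          have h9 : ((P.filter (fun j : ℕ => a + j * g ≤ T)).card : ℝ) ≤ J + 1 := by
            have := Finset.card_filter_le P (fun j : ℕ => a + j * g ≤ T)
            rw [hP, Finset.card_range] at this
            exact_mod_cast this
          gcongr
  refine h8.trans ?_
  have h10 : (J : ℝ) + 1 ≤ 3 * (b - a) / h := by
    have e2 : (b - a) / g = 2 * (b - a) / h := by rw [hg]; field_simp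
    have e3 : 1 ≤ (b - a) / h := by rwa [one_le_div hh0]
    have e4 : 3 * (b - a) / h = 2 * (b - a) / h + (b - a) / h := by ring
    rw [e4, ← e2]
    linarith
  calc ((J : ℝ) + 1) * (2 * C * q.totient / (H * Real.log q))
      ≤ 3 * (b - a) / h * (2 * C * q.totient / (H * Real.log q)) := by gcongr
    _ = 6 * C * (b - a) * q.totient / (h * H * Real.log q) := by
        field_simp
        ring

theorem uniform_all (T : ℝ) : ∃ C : ℝ, 0 < C ∧ ∀ (q : ℕ) [NeZero q], 2 ≤ q →
    ∀ a b h H : ℝ, -T ≤ a → b ≤ T → 0 < H → H ≤ h → h ≤ b - a →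
      ((someFew q a b h ⌊h / H⌋₊).ncard : ℝ) ≤
        C * (b - a) * q.totient / (h * H * Real.log q) := by
  classical
  obtain ⟨C, hC, hw⟩ := uniform_short T
  refine ⟨C * max 1 (4 * T ^ 2), by positivity, fun q _ hq a b h H ha hb hH hHh hba => ?_⟩
  have hlog : 0 < Real.log q := Real.log_pos (by exact_mod_cast hq)
  have hφ : (0 : ℝ) ≤ q.totient := by positivity
  have hh0 : 0 < h := hH.trans_le hHh
  have hba0 : 0 < b - a := by linarith
  rcases le_or_gt h 1 with h1 | h1
  · refine (hw q hq a b h H ha hb hH hHh h1 hba).trans ?_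
    have h2 : C ≤ C * max 1 (4 * T ^ 2) := by
      nlinarith [le_max_left 1 (4 * T ^ 2)]
    gcongr
  · have key := hw q hq a b 1 (H / h) ha hb (by positivity)
      (by rw [div_le_one hh0]; exact hHh) le_rfl (by linarith)
    have e1 : (1 : ℝ) / (H / h) = h / H := by field_simp
    rw [e1] at key
    have hsub : someFew q a b h ⌊h / H⌋₊ ⊆ someFew q a b 1 ⌊h / H⌋₊ := by
      rintro χ ⟨hχ, x, hx, hx', hN⟩
      refine ⟨hχ, x, hx, by linarith, le_trans (Set.encard_le_encard ?_) hN⟩
      intro s hs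
      exact ⟨hs.1, hs.2.1, by linarith [hs.2.2]⟩
    have h2 : ((someFew q a b h ⌊h / H⌋₊).ncard : ℝ) ≤ (someFew q a b 1 ⌊h / H⌋₊).ncard := by
      exact_mod_cast Set.ncard_le_ncard hsub (Set.toFinite _)
    refine h2.trans (key.trans ?_)
    have e2 : C * (b - a) * q.totient / (1 * (H / h) * Real.log q) =
        C * h ^ 2 * (b - a) * q.totient / (h * H * Real.log q) := by
      field_simp
    rw [e2]
    have h3 : h ^ 2 ≤ max 1 (4 * T ^ 2) := by
      refine le_trans ?_ (le_max_right _ _)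
      have h4 : h ≤ 2 * T := by linarith
      nlinarith
    gcongr

end Pool.Agent.SQS
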